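import Mathlib

/-!
# The surface of Ramanujam over a field of characteristic zero, and once-punctured curves

(After the library module `Pool.Agent.W512.RamDefs`, which treats the complex numbers.)

Let `C` be the cuspidal plane cubic `y = x³ - 5x²` and let `Q` be the smooth conic
`y² + 15xy + 55x² - 5y - 32x = 0`.  On `C`, with the parameter `x = t`, the equation of `Q` becomes
`t (t - 2)⁵ = 0`.  So the two curves meet in two points: in the origin `r = (0, 0)` with multiplicity
one and in `p = (2, -12)` with multiplicity five; the cusp of `C` lies at infinity, outside of `Q`.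
Let `F` be the blow-up of the projective plane in `r`, let `C'` and `Q'` be the strict transforms of
`C` and of `Q`.  The surface `X = F \ (C' ∪ Q')` is the surface of Ramanujam; it is smooth,
affine, contractible (over the complex numbers) and of logarithmic general type.

The divisor `C' + Q'` is ample, of class `5 L - 2 E`, where `L` is the class of a line and `E` is the
exceptional curve.  The sections of its `n`-th multiple are the polynomials of degree at most `5 n`
which vanish in the origin to the order `2 n` at least.  They are the sums of the products of `n`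
monomials `x ^ i * y ^ j` with `2 ≤ i + j ≤ 5`.  So the coordinate ring of `X` is generated by the
functions `x ^ i * y ^ j / (c * q)` with `2 ≤ i + j ≤ 5`, where `c` and `q` are the equations of `C`
and of `Q`.
-/

set_option autoImplicit false

namespace Pool.Agent.H68.RJ.Ramanujam

open MvPolynomial

noncomputable section

universe u v

variable {𝕜 : Type u} [Field 𝕜]

/-- The equation of the cuspidal cubic `C`. -/
def cubic : MvPolynomial (Fin 2) 𝕜 := X 1 - X 0 ^ 3 + 5 * X 0 ^ 2

/-- The equation of the conic `Q`. -/
def conic : MvPolynomial (Fin 2) 𝕜 := X 1 ^ 2 + 15 * X 0 * X 1 + 55 * X 0 ^ 2 - 5 * X 1 - 32 * X 0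

variable (𝕜) in
/-- The coordinate ring of the surface of Ramanujam: the subalgebra of the field of the rational
functions in two variables that is generated by the functions `x ^ i * y ^ j / (c * q)` with
`2 ≤ i + j ≤ 5`, where `c = 0` and `q = 0` are the cubic and the conic. -/
def coordinateRing : Subalgebra 𝕜 (FractionRing (MvPolynomial (Fin 2) 𝕜)) :=
  Algebra.adjoin 𝕜 {f | ∃ i j : ℕ, 2 ≤ i + j ∧ i + j ≤ 5 ∧
    f = algebraMap _ _ (X 0 ^ i * X 1 ^ j : MvPolynomial (Fin 2) 𝕜) /
      algebraMap _ _ (cubic * conic : MvPolynomial (Fin 2) 𝕜)}

variable (𝕜) in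
/-- The points at infinity of the normalization of the affine curve over `𝕜` with the coordinate ring
`B`: the valuation rings of the function field that contain `𝕜` but do not contain `B`.  They
correspond to the points of the smooth projective model of the curve which do not lie over the affine
curve. -/
def pointsAtInfinity (B : Type v) [CommRing B] [IsDomain B] [Algebra 𝕜 B] :
    Set (ValuationSubring (FractionRing B)) :=
  {V | (∀ z : 𝕜, algebraMap B (FractionRing B) (algebraMap 𝕜 B z) ∈ V) ∧
    ∃ b : B, algebraMap B (FractionRing B) b ∉ V}

/-- On the cubic `C`, with the parameter `x = t`, the equation of the conic `Q` is `t (t - 2)⁵`.  So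
`C` and `Q` meet in `(0, 0)` with multiplicity one, and in `(2, -12)` with multiplicity five. -/
lemma conic_on_cubic (t : 𝕜) : eval ![t, t ^ 3 - 5 * t ^ 2] cubic = 0 ∧
    eval ![t, t ^ 3 - 5 * t ^ 2] conic = t * (t - 2) ^ 5 := by
  rw [cubic, conic]
  simp only [map_add, map_sub, map_mul, map_pow, map_ofNat, eval_X, Matrix.cons_val_zero,
    Matrix.cons_val_one]
  constructor <;> ring

end

end Pool.Agent.H68.RJ.Ramanujam

namespace Pool.Agent.H68.RJ.Ram

universe u v

variable (𝕜 : Type u) [Field 𝕜] {K : Type v} [Field K] [Algebra 𝕜 K]

/-- the constants are in `V` -/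
def CstP (V : ValuationSubring K) : Prop := ∀ z : 𝕜, algebraMap 𝕜 K z ∈ V

/-- the function `f` takes the value `a` at the place `V` -/
def AtP (V : ValuationSubring K) (f : K) (a : 𝕜) : Prop := V.valuation (f - algebraMap 𝕜 K a) < 1

end Pool.Agent.H68.RJ.Ram
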