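import Mathlib
import Pool.Agent.H68.RJ.RamDefs

set_option autoImplicit false

namespace Pool.Agent.H68.RJ.Ram

open MvPolynomial

noncomputable section

universe u v

variable {𝕜 : Type u} [Field 𝕜] [IsAlgClosed 𝕜] [CharZero 𝕜]



variable {K : Type v} [Field K] [Algebra 𝕜 K]



lemma exists_place {ι : Type} (α : ι → K) (a : ι → 𝕜)
    (hker : ∀ G : MvPolynomial ι 𝕜, aeval α G = 0 → eval a G = 0) :
    ∃ V : ValuationSubring K, (CstP 𝕜) V ∧ ∀ i, (AtP 𝕜) V (α i) (a i) := by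
  set f : MvPolynomial ι 𝕜 →+* K := (aeval α : MvPolynomial ι 𝕜 →ₐ[𝕜] K).toRingHom with hf
  set A : Subring K := f.range with hA
  set I : Ideal A := (RingHom.ker (eval a : MvPolynomial ι 𝕜 →+* 𝕜)).map f.rangeRestrict with hI
  have hI1 : I ≠ ⊤ := by
    intro h
    have h1 := Ideal.comap_map_of_surjective f.rangeRestrict f.rangeRestrict_surjective
      (RingHom.ker (eval a : MvPolynomial ι 𝕜 →+* 𝕜))
    rw [← hI, h, Ideal.comap_top] at h1
    have h2 : (1 : MvPolynomial ι 𝕜) ∈ (⊤ : Ideal (MvPolynomial ι 𝕜)) := trivial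
    rw [h1] at h2
    have h3 : RingHom.ker (eval a : MvPolynomial ι 𝕜 →+* 𝕜) ⊔ Ideal.comap f.rangeRestrict ⊥ ≤
        RingHom.ker (eval a : MvPolynomial ι 𝕜 →+* 𝕜) := by
      apply sup_le le_rfl
      intro G hG
      rw [Ideal.mem_comap, Ideal.mem_bot] at hG
      rw [RingHom.mem_ker]
      apply hker
      exact congrArg Subtype.val hG
    have h4 := h3 h2
    rw [RingHom.mem_ker, map_one] at h4
    exact one_ne_zero h4
  obtain ⟨V, hV1, hV2⟩ := Ideal.image_subset_nonunits_valuationSubring I hI1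
  refine ⟨V, ?_, ?_⟩
  · intro z
    apply hV1
    refine ⟨C z, ?_⟩
    show aeval α (C z) = _
    rw [aeval_C]
  · intro i
    rw [AtP, ← ValuationSubring.mem_nonunits_iff]
    apply hV2
    refine ⟨f.rangeRestrict (X i - C (a i)), ?_, ?_⟩
    · apply Ideal.mem_map_of_mem
      rw [RingHom.mem_ker]
      simp
    · show f (X i - C (a i)) = _
      show aeval α (X i - C (a i)) = _
      rw [map_sub, aeval_X, aeval_C]

section AtSec

variable {V : ValuationSubring K}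

lemma AtP.le_one (hV : (CstP 𝕜) V) {f : K} {a : 𝕜} (h : (AtP 𝕜) V f a) : V.valuation f ≤ 1 := by
  have h1 : V.valuation (algebraMap 𝕜 K a) ≤ 1 := (V.valuation_le_one_iff _).2 (hV a)
  have h2 : f = (f - algebraMap 𝕜 K a) + algebraMap 𝕜 K a := by ring
  rw [h2]
  exact V.valuation.map_add_le h.le h1

lemma val_const (hV : (CstP 𝕜) V) {a : 𝕜} (ha : a ≠ 0) : V.valuation (algebraMap 𝕜 K a) = 1 := by
  apply le_antisymm ((V.valuation_le_one_iff _).2 (hV a))
  have h1 : V.valuation (algebraMap 𝕜 K a⁻¹) ≤ 1 := (V.valuation_le_one_iff _).2 (hV _)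
  rw [map_inv₀, map_inv₀] at h1
  have h2 : V.valuation (algebraMap 𝕜 K a) ≠ 0 := by
    rw [Valuation.ne_zero_iff]
    exact (map_ne_zero _).2 ha
  exact (inv_le_one₀ (zero_lt_iff.2 h2)).1 h1

lemma AtP.const (V : ValuationSubring K) (a : 𝕜) : (AtP 𝕜) V (algebraMap 𝕜 K a) a := by
  rw [AtP, sub_self, map_zero]
  exact zero_lt_one

lemma AtP.add {f g : K} {a b : 𝕜} (hf : (AtP 𝕜) V f a) (hg : (AtP 𝕜) V g b) : (AtP 𝕜) V (f + g) (a + b) := by
  rw [AtP, map_add]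
  have : f + g - (algebraMap 𝕜 K a + algebraMap 𝕜 K b) =
      (f - algebraMap 𝕜 K a) + (g - algebraMap 𝕜 K b) := by ring
  rw [this]
  exact V.valuation.map_add_lt hf hg

lemma AtP.neg {f : K} {a : 𝕜} (hf : (AtP 𝕜) V f a) : (AtP 𝕜) V (-f) (-a) := by
  rw [AtP, map_neg]
  have : -f - -algebraMap 𝕜 K a = -(f - algebraMap 𝕜 K a) := by ring
  rw [this, Valuation.map_neg]
  exact hf

lemma AtP.sub {f g : K} {a b : 𝕜} (hf : (AtP 𝕜) V f a) (hg : (AtP 𝕜) V g b) : (AtP 𝕜) V (f - g) (a - b) := by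
  rw [sub_eq_add_neg, sub_eq_add_neg]
  exact hf.add hg.neg

lemma AtP.mul (hV : (CstP 𝕜) V) {f g : K} {a b : 𝕜} (hf : (AtP 𝕜) V f a) (hg : (AtP 𝕜) V g b) :
    (AtP 𝕜) V (f * g) (a * b) := by
  rw [AtP, map_mul]
  have : f * g - algebraMap 𝕜 K a * algebraMap 𝕜 K b =
      (f - algebraMap 𝕜 K a) * g + algebraMap 𝕜 K a * (g - algebraMap 𝕜 K b) := by ring
  rw [this]
  apply V.valuation.map_add_lt
  · rw [map_mul]
    exact mul_lt_one_of_lt_of_le hf (hg.le_one hV)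
  · rw [map_mul, mul_comm]
    exact mul_lt_one_of_lt_of_le hg ((V.valuation_le_one_iff _).2 (hV a))

lemma AtP.one (V : ValuationSubring K) : (AtP 𝕜) V 1 1 := by
  have := AtP.const V (1 : 𝕜)
  rwa [map_one] at this

lemma AtP.pow (hV : (CstP 𝕜) V) {f : K} {a : 𝕜} (hf : (AtP 𝕜) V f a) (n : ℕ) : (AtP 𝕜) V (f ^ n) (a ^ n) := by
  induction n with
  | zero => rw [pow_zero, pow_zero]; exact AtP.one V
  | succ n ih => rw [pow_succ, pow_succ]; exact ih.mul hV hf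

lemma AtP.unique (hV : (CstP 𝕜) V) {f : K} {a b : 𝕜} (h1 : (AtP 𝕜) V f a) (h2 : (AtP 𝕜) V f b) : a = b := by
  by_contra hab
  have h3 := h1.sub h2
  rw [sub_self, AtP, zero_sub, Valuation.map_neg, val_const hV (sub_ne_zero.2 hab)] at h3
  exact lt_irrefl _ h3

lemma AtP.val_eq_one (hV : (CstP 𝕜) V) {f : K} {a : 𝕜} (h : (AtP 𝕜) V f a) (ha : a ≠ 0) :
    V.valuation f = 1 := by
  have h2 : f = (f - algebraMap 𝕜 K a) + algebraMap 𝕜 K a := by ring
  rw [h2, Valuation.map_add_eq_of_lt_right]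
  · exact val_const hV ha
  · rw [val_const hV ha]
    exact h

lemma AtP.val_lt_one {f : K} (h : (AtP 𝕜) V f 0) : V.valuation f < 1 := by
  rwa [AtP, map_zero, sub_zero] at h

lemma AtP.of_val_lt_one {f : K} (h : V.valuation f < 1) : (AtP 𝕜) V f 0 := by
  rwa [AtP, map_zero, sub_zero]

lemma AtP.poly (hV : (CstP 𝕜) V) {ι : Type} {α : ι → K} {a : ι → 𝕜} (h : ∀ i, (AtP 𝕜) V (α i) (a i))
    (G : MvPolynomial ι 𝕜) : (AtP 𝕜) V (aeval α G) (eval a G) := by
  induction G using MvPolynomial.induction_on with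
  | C z => rw [aeval_C, eval_C]; exact AtP.const V z
  | add p q hp hq => rw [map_add, map_add]; exact hp.add hq
  | mul_X p i hp => rw [map_mul, map_mul, aeval_X, eval_X]; exact hp.mul hV (h i)

/-- a quotient with a pole -/
lemma not_mem_div (hV : (CstP 𝕜) V) {f g : K} {a : 𝕜} (hf : (AtP 𝕜) V f a) (ha : a ≠ 0)
    (hg : V.valuation g < 1) (hg0 : g ≠ 0) : f / g ∉ V := by
  rw [← V.valuation_le_one_iff, map_div₀, hf.val_eq_one hV ha, not_le, one_div]
  exact (one_lt_inv₀ (zero_lt_iff.2 ((Valuation.ne_zero_iff _).2 hg0))).2 hg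

lemma AtP.inv (hV : (CstP 𝕜) V) {f : K} {a : 𝕜} (h : (AtP 𝕜) V f a) (ha : a ≠ 0) : (AtP 𝕜) V f⁻¹ a⁻¹ := by
  have h1 := h.val_eq_one hV ha
  have hf : f ≠ 0 := by
    rintro rfl
    rw [map_zero] at h1
    exact zero_ne_one h1
  have ha' : algebraMap 𝕜 K a ≠ 0 := (map_ne_zero _).2 ha
  rw [AtP, map_inv₀]
  have : f⁻¹ - (algebraMap 𝕜 K a)⁻¹ = -(f - algebraMap 𝕜 K a) * (f⁻¹ * (algebraMap 𝕜 K a)⁻¹) := by
    field_simp
    ring
  rw [this, map_mul, Valuation.map_neg, map_mul, map_inv₀, map_inv₀, h1, val_const hV ha, inv_one,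
    mul_one, mul_one]
  exact h

end AtSec

end

end Pool.Agent.H68.RJ.Ram
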