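import Mathlib
import Pool.Agent.H68.RJ.RA

set_option autoImplicit false

namespace Pool.Agent.H68.RJ.Ram

open MvPolynomial

noncomputable section

universe u v

variable {𝕜 : Type u} [Field 𝕜] [IsAlgClosed 𝕜] [CharZero 𝕜]


variable {K : Type v} [Field K] [Algebra 𝕜 K]

lemma aeval_theta (θ : (MvPolynomial (Fin 2) 𝕜) →ₐ[𝕜] K) (G : (MvPolynomial (Fin 2) 𝕜)) : aeval (fun i => θ (X i)) G = θ G := by
  have : (aeval (fun i => θ (X i)) : (MvPolynomial (Fin 2) 𝕜) →ₐ[𝕜] K) = θ := by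
    apply MvPolynomial.algHom_ext
    intro i
    rw [aeval_X]
  rw [this]

/-- a point of the affine plane -/
lemma place_affine {θ : (MvPolynomial (Fin 2) 𝕜) →ₐ[𝕜] K} {h : (MvPolynomial (Fin 2) 𝕜)} (hker : ∀ F, θ F = 0 → h ∣ F) {a : Fin 2 → 𝕜}
    (ha : eval a h = 0) : ∃ V : ValuationSubring K, (CstP 𝕜) V ∧ ∀ i, (AtP 𝕜) V (θ (X i)) (a i) := by
  apply exists_place (fun i => θ (X i)) a
  intro G hG
  rw [aeval_theta] at hG
  obtain ⟨F, rfl⟩ := hker G hG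
  rw [map_mul, ha, zero_mul]

/-! ### points at infinity -/

variable (𝕜) in
/-- the restriction to a line through the origin -/
def rayP (e : Fin 2 → 𝕜) : (MvPolynomial (Fin 2) 𝕜) →ₐ[𝕜] Polynomial 𝕜 := aeval (fun i => Polynomial.C (e i) * Polynomial.X)


lemma ray_monomial (e : Fin 2 → 𝕜) (m : Fin 2 →₀ ℕ) (c : 𝕜) :
    (rayP 𝕜) e (monomial m c) = Polynomial.monomial (m.degree) (c * eval e (monomial m 1)) := by
  rw [rayP, aeval_monomial, Finsupp.prod_fintype _ _ (fun _ => pow_zero _), eval_monomial,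
    Finsupp.prod_fintype _ _ (fun _ => pow_zero _), Finsupp.degree_eq_sum]
  simp only [Fin.prod_univ_two, Fin.sum_univ_two, mul_pow]
  rw [← Polynomial.C_mul_X_pow_eq_monomial, Polynomial.algebraMap_eq]
  simp only [← Polynomial.C_pow, one_mul, Polynomial.C_mul, pow_add]
  ring

lemma natDegree_ray_le (e : Fin 2 → 𝕜) (F : (MvPolynomial (Fin 2) 𝕜)) : ((rayP 𝕜) e F).natDegree ≤ F.totalDegree := by
  rw [F.as_sum, map_sum]
  apply Polynomial.natDegree_sum_le_of_forall_le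
  intro m hm
  rw [ray_monomial]
  refine (Polynomial.natDegree_monomial_le _).trans ?_
  rw [← F.as_sum]
  exact MvPolynomial.le_totalDegree hm

lemma infty_aux (θ : (MvPolynomial (Fin 2) 𝕜) →ₐ[𝕜] K) (l m : Fin 2) (e : Fin 2 → 𝕜) (hl : θ (X l) ≠ 0) (he : e l = 1)
    (G : MvPolynomial (Fin 2) 𝕜) : ∃ N : ℕ, ∀ n, N ≤ n → ∃ F : (MvPolynomial (Fin 2) 𝕜),
      θ F = θ (X l) ^ n * aeval ![θ (X m) / θ (X l), (θ (X l))⁻¹] G ∧ F.totalDegree ≤ n ∧
      ((rayP 𝕜) e F).coeff n = eval ![e m, 0] G := by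
  induction G using MvPolynomial.induction_on with
  | C z =>
    refine ⟨0, fun n _ => ⟨C z * X l ^ n, ?_, ?_, ?_⟩⟩
    · rw [map_mul, map_pow, aeval_C, mul_comm]
      congr 1
      exact θ.commutes z
    · refine (MvPolynomial.totalDegree_mul _ _).trans ?_
      rw [totalDegree_C, zero_add, totalDegree_X_pow]
    · rw [eval_C, map_mul, map_pow, rayP, aeval_X, he, Polynomial.C_1, one_mul,
        Polynomial.coeff_mul_X_pow', if_pos le_rfl, Nat.sub_self, aeval_C, Polynomial.algebraMap_eq,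
        Polynomial.coeff_C_zero]
  | add p q hp hq =>
    obtain ⟨N1, h1⟩ := hp
    obtain ⟨N2, h2⟩ := hq
    refine ⟨max N1 N2, fun n hn => ?_⟩
    obtain ⟨F1, a1, b1, c1⟩ := h1 n ((le_max_left _ _).trans hn)
    obtain ⟨F2, a2, b2, c2⟩ := h2 n ((le_max_right _ _).trans hn)
    refine ⟨F1 + F2, ?_, (totalDegree_add _ _).trans (max_le b1 b2), ?_⟩
    · rw [map_add, a1, a2, map_add, mul_add]
    · rw [map_add, Polynomial.coeff_add, c1, c2, map_add]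
  | mul_X p i hp =>
    obtain ⟨N, h1⟩ := hp
    refine ⟨N + 1, fun n hn => ?_⟩
    obtain ⟨k, rfl⟩ : ∃ k, n = k + 1 := ⟨n - 1, by omega⟩
    obtain ⟨F, a1, b1, c1⟩ := h1 k (by omega)
    fin_cases i
    · refine ⟨F * X m, ?_, ?_, ?_⟩
      · rw [map_mul, a1, map_mul, aeval_X]
        simp only [Matrix.cons_val_zero, Fin.zero_eta, Fin.isValue]
        rw [pow_succ]
        field_simp
      · refine (MvPolynomial.totalDegree_mul _ _).trans ?_
        rw [totalDegree_X]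
        omega
      · rw [map_mul, map_mul, eval_X, rayP, aeval_X, ← mul_assoc, Polynomial.coeff_mul_X,
          Polynomial.coeff_mul_C, ← rayP, c1]
        rfl
    · refine ⟨F, ?_, ?_, ?_⟩
      · rw [a1, map_mul, aeval_X]
        simp only [Matrix.cons_val_one, Fin.mk_one, Fin.isValue, Matrix.cons_val_fin_one]
        rw [pow_succ]
        field_simp
      · omega
      · rw [map_mul, eval_X, Polynomial.coeff_eq_zero_of_natDegree_lt]
        · simp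
        · have := natDegree_ray_le e F
          omega

/-- a point at infinity -/
lemma place_infty {θ : (MvPolynomial (Fin 2) 𝕜) →ₐ[𝕜] K} {h : (MvPolynomial (Fin 2) 𝕜)} (hker : ∀ F, θ F = 0 → h ∣ F) (l m : Fin 2)
    (e : Fin 2 → 𝕜) (hl : θ (X l) ≠ 0) (he : e l = 1) (hh : ((rayP 𝕜) e h).coeff h.totalDegree = 0) :
    ∃ V : ValuationSubring K, (CstP 𝕜) V ∧ (AtP 𝕜) V (θ (X m) / θ (X l)) (e m) ∧ (AtP 𝕜) V (θ (X l))⁻¹ 0 := by
  obtain ⟨V, hV, h1⟩ := exists_place ![θ (X m) / θ (X l), (θ (X l))⁻¹] ![e m, 0] (by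
    intro G hG
    obtain ⟨N, hN⟩ := infty_aux θ l m e hl he G
    obtain ⟨F, a1, b1, c1⟩ := hN N le_rfl
    rw [hG, mul_zero] at a1
    rw [← c1]
    obtain ⟨f, rfl⟩ := hker F a1
    by_cases h0 : h * f = 0
    · rw [h0, map_zero, Polynomial.coeff_zero]
    · replace h0 := mul_ne_zero_iff.1 h0
      rw [MvPolynomial.totalDegree_mul_of_isDomain h0.1 h0.2] at b1
      obtain ⟨k, rfl⟩ : ∃ k, N = h.totalDegree + k := ⟨N - h.totalDegree, by omega⟩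
      rw [map_mul, Polynomial.coeff_mul_add_eq_of_natDegree_le (natDegree_ray_le e h)
        ((natDegree_ray_le e f).trans (by omega)), hh, zero_mul])
  exact ⟨V, hV, h1 0, h1 1⟩

/-! ### weights -/

variable (𝕜) in
/-- the grading by weights -/
def wtP (a b : ℕ) : (MvPolynomial (Fin 2) 𝕜) →ₐ[𝕜] Polynomial (MvPolynomial (Fin 2) 𝕜) :=
  aeval ![Polynomial.C (X 0) * Polynomial.X ^ a, Polynomial.C (X 1) * Polynomial.X ^ b]


lemma wt_X0 (a b : ℕ) : (wtP 𝕜) a b (X 0) = Polynomial.C (X 0) * Polynomial.X ^ a := by simp [wtP]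
lemma wt_X1 (a b : ℕ) : (wtP 𝕜) a b (X 1) = Polynomial.C (X 1) * Polynomial.X ^ b := by simp [wtP]
lemma wt_C (a b : ℕ) (z : 𝕜) : (wtP 𝕜) a b (C z) = Polynomial.C (C z) := by
  rw [wtP, aeval_C]; rfl

lemma wt_inj (a b : ℕ) {F : (MvPolynomial (Fin 2) 𝕜)} (h : (wtP 𝕜) a b F = 0) : F = 0 := by
  have h1 : ((Polynomial.evalRingHom (1 : (MvPolynomial (Fin 2) 𝕜))).comp (((wtP 𝕜) a b : (MvPolynomial (Fin 2) 𝕜) →ₐ[𝕜] Polynomial (MvPolynomial (Fin 2) 𝕜)) : (MvPolynomial (Fin 2) 𝕜) →+* Polynomial (MvPolynomial (Fin 2) 𝕜))) =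
      RingHom.id (MvPolynomial (Fin 2) 𝕜) := by
    apply MvPolynomial.ringHom_ext
    · intro r
      simp [wtP]
    · intro i
      fin_cases i <;> simp [wtP]
  have h2 := congrArg (fun f => f F) h1
  simp only [RingHom.comp_apply, RingHom.id_apply, RingHom.coe_coe, h, map_zero] at h2
  exact h2.symm

lemma shift {p q : Polynomial (MvPolynomial (Fin 2) 𝕜)} {n r : ℕ} {M0 : (MvPolynomial (Fin 2) 𝕜)} (hp : Polynomial.X ^ n ∣ p)
    (hq : q = Polynomial.C M0 * Polynomial.X ^ r) : Polynomial.X ^ (n + r) ∣ p * q ∧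
      (p * q).coeff (n + r) = p.coeff n * M0 := by
  obtain ⟨g, rfl⟩ := hp
  subst hq
  constructor
  · refine ⟨g * Polynomial.C M0, ?_⟩
    rw [pow_add]
    ring
  · rw [← mul_assoc, Polynomial.coeff_mul_X_pow, Polynomial.coeff_mul_C]

lemma coeff_of_dvd {p : Polynomial (MvPolynomial (Fin 2) 𝕜)} {n m : ℕ} (hp : Polynomial.X ^ n ∣ p) (hm : m < n) :
    p.coeff m = 0 := by
  obtain ⟨g, rfl⟩ := hp
  rw [Polynomial.coeff_X_pow_mul', if_neg (by omega)]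

lemma wt_mon0 (a b n : ℕ) : (wtP 𝕜) a b (X 0 ^ n) = Polynomial.C (X 0 ^ n) * Polynomial.X ^ (a * n) := by
  rw [map_pow, wt_X0, mul_pow, ← pow_mul, Polynomial.C_pow]

lemma wt_mon1 (a b n : ℕ) : (wtP 𝕜) a b (X 1 ^ n) = Polynomial.C (X 1 ^ n) * Polynomial.X ^ (b * n) := by
  rw [map_pow, wt_X1, mul_pow, ← pow_mul, Polynomial.C_pow]

/-- the property of the polynomials in the three functions that we need -/
def WtP (θ : (MvPolynomial (Fin 2) 𝕜) →ₐ[𝕜] K) (a b : ℕ) (y0 : 𝕜) (G : MvPolynomial (Fin 3) 𝕜) (n : ℕ) : Prop :=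
  ∃ F : (MvPolynomial (Fin 2) 𝕜), θ F = θ (X 0) ^ (b * n) * aeval ![θ (X 0), θ (X 1), θ (X 1) ^ a / θ (X 0) ^ b] G ∧
      Polynomial.X ^ (a * b * n) ∣ (wtP 𝕜) a b F ∧
      eval ![1, y0] (((wtP 𝕜) a b F).coeff (a * b * n)) = eval ![0, 0, y0 ^ a] G

lemma WtP.step0 {θ : (MvPolynomial (Fin 2) 𝕜) →ₐ[𝕜] K} {a b : ℕ} (ha : 0 < a) {y0 : 𝕜} {G : MvPolynomial (Fin 3) 𝕜} {k : ℕ}
    (h : WtP θ a b y0 G k) : WtP θ a b y0 (G * X 0) (k + 1) := by
  obtain ⟨F, a1, b1, c1⟩ := h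
  obtain ⟨s1, s2⟩ := shift b1 (wt_mon0 a b (b + 1))
  rw [← map_mul] at s1 s2
  refine ⟨F * X 0 ^ (b + 1), ?_, ?_, ?_⟩
  · rw [map_mul, a1, map_mul, aeval_X, map_pow]
    simp only [Matrix.cons_val_zero]
    ring
  · refine dvd_trans (pow_dvd_pow _ ?_) s1
    nlinarith
  · rw [coeff_of_dvd s1 (by nlinarith), map_mul, eval_X]
    simp

lemma WtP.step1 {θ : (MvPolynomial (Fin 2) 𝕜) →ₐ[𝕜] K} {a b : ℕ} (hb : 0 < b) {y0 : 𝕜} {G : MvPolynomial (Fin 3) 𝕜} {k : ℕ}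
    (h : WtP θ a b y0 G k) : WtP θ a b y0 (G * X 1) (k + 1) := by
  obtain ⟨F, a1, b1, c1⟩ := h
  obtain ⟨s1, s2⟩ := shift b1 (wt_mon0 a b b)
  rw [← map_mul] at s1 s2
  obtain ⟨t1, t2⟩ := shift s1 (wt_X1 a b)
  rw [← map_mul] at t1 t2
  refine ⟨F * X 0 ^ b * X 1, ?_, ?_, ?_⟩
  · rw [map_mul, map_mul, a1, map_mul, aeval_X, map_pow]
    simp only [Matrix.cons_val_one, Matrix.cons_val_zero]
    ring
  · refine dvd_trans (pow_dvd_pow _ ?_) t1
    nlinarith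
  · rw [coeff_of_dvd t1 (by nlinarith), map_mul, eval_X]
    simp

lemma WtP.step2 {θ : (MvPolynomial (Fin 2) 𝕜) →ₐ[𝕜] K} {a b : ℕ} {y0 : 𝕜} (hx : θ (X 0) ≠ 0) {G : MvPolynomial (Fin 3) 𝕜}
    {k : ℕ} (h : WtP θ a b y0 G k) : WtP θ a b y0 (G * X 2) (k + 1) := by
  obtain ⟨F, a1, b1, c1⟩ := h
  obtain ⟨s1, s2⟩ := shift b1 (wt_mon1 a b a)
  rw [← map_mul] at s1 s2
  have e : a * b * (k + 1) = a * b * k + b * a := by ring
  refine ⟨F * X 1 ^ a, ?_, ?_, ?_⟩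
  · rw [map_mul, a1, map_mul, aeval_X, map_pow]
    have : ![θ (X 0), θ (X 1), θ (X 1) ^ a / θ (X 0) ^ b] 2 = θ (X 1) ^ a / θ (X 0) ^ b := rfl
    rw [this, mul_add, mul_one, pow_add]
    have hx' : θ (X 0) ^ b ≠ 0 := pow_ne_zero _ hx
    field_simp
  · rw [e]
    exact s1
  · rw [e, s2, map_mul, c1, map_mul, map_pow, eval_X, eval_X]
    rfl

lemma wt_aux (θ : (MvPolynomial (Fin 2) 𝕜) →ₐ[𝕜] K) (a b : ℕ) (ha : 0 < a) (hb : 0 < b) (y0 : 𝕜) (hx : θ (X 0) ≠ 0)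
    (G : MvPolynomial (Fin 3) 𝕜) : ∃ N : ℕ, ∀ n, N ≤ n → WtP θ a b y0 G n := by
  induction G using MvPolynomial.induction_on with
  | C z =>
    refine ⟨0, fun n _ => ?_⟩
    have e1 : (wtP 𝕜) a b (C z * X 0 ^ (b * n)) =
        Polynomial.C (C z * X 0 ^ (b * n)) * Polynomial.X ^ (a * b * n) := by
      rw [map_mul, wt_mon0, wt_C, ← mul_assoc a b n, ← mul_assoc, ← Polynomial.C_mul]
    refine ⟨C z * X 0 ^ (b * n), ?_, ?_, ?_⟩
    · rw [map_mul, map_pow, aeval_C, mul_comm]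
      congr 1
      exact θ.commutes z
    · rw [e1]
      exact dvd_mul_left _ _
    · rw [e1, Polynomial.coeff_C_mul_X_pow, if_pos rfl, map_mul, map_pow, eval_C, eval_C, eval_X]
      simp
  | add p q hp hq =>
    obtain ⟨N1, h1⟩ := hp
    obtain ⟨N2, h2⟩ := hq
    refine ⟨max N1 N2, fun n hn => ?_⟩
    obtain ⟨F1, a1, b1, c1⟩ := h1 n ((le_max_left _ _).trans hn)
    obtain ⟨F2, a2, b2, c2⟩ := h2 n ((le_max_right _ _).trans hn)
    refine ⟨F1 + F2, ?_, ?_, ?_⟩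
    · rw [map_add, a1, a2, map_add, mul_add]
    · rw [map_add]; exact dvd_add b1 b2
    · rw [map_add, Polynomial.coeff_add, map_add, c1, c2, map_add]
  | mul_X p i hp =>
    obtain ⟨N, h1⟩ := hp
    refine ⟨N + 1, fun n hn => ?_⟩
    obtain ⟨k, rfl⟩ : ∃ k, n = k + 1 := ⟨n - 1, by omega⟩
    have h2 := h1 k (by omega)
    fin_cases i
    · exact h2.step0 ha
    · exact h2.step1 hb
    · exact h2.step2 hx

/-- a point of a weighted blow-up -/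
lemma place_wt {θ : (MvPolynomial (Fin 2) 𝕜) →ₐ[𝕜] K} {h : (MvPolynomial (Fin 2) 𝕜)} (hker : ∀ F, θ F = 0 → h ∣ F) (a b : ℕ) (ha : 0 < a)
    (hb : 0 < b) (y0 : 𝕜) (hx : θ (X 0) ≠ 0)
    (hh : eval ![1, y0] ((wtP 𝕜) a b h).trailingCoeff = 0) :
    ∃ V : ValuationSubring K, (CstP 𝕜) V ∧ (AtP 𝕜) V (θ (X 0)) 0 ∧ (AtP 𝕜) V (θ (X 1)) 0 ∧
      (AtP 𝕜) V (θ (X 1) ^ a / θ (X 0) ^ b) (y0 ^ a) := by
  obtain ⟨V, hV, h1⟩ := exists_place ![θ (X 0), θ (X 1), θ (X 1) ^ a / θ (X 0) ^ b]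
    ![0, 0, y0 ^ a] (by
    intro G hG
    obtain ⟨N, hN⟩ := wt_aux θ a b ha hb y0 hx G
    obtain ⟨F, a1, b1, c1⟩ := hN N le_rfl
    rw [hG, mul_zero] at a1
    by_contra h0
    rw [← c1] at h0
    have h2 : ((wtP 𝕜) a b F).coeff (a * b * N) ≠ 0 := fun h3 => h0 (by rw [h3, map_zero])
    have h3 : (wtP 𝕜) a b F ≠ 0 := fun h4 => h2 (by rw [h4, Polynomial.coeff_zero])
    have h4 : ((wtP 𝕜) a b F).natTrailingDegree = a * b * N := by
      apply le_antisymm (Polynomial.natTrailingDegree_le_of_ne_zero h2)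
      obtain ⟨g, hg⟩ := b1
      apply Polynomial.le_natTrailingDegree h3
      intro m hm
      rw [hg, Polynomial.coeff_X_pow_mul', if_neg (by omega)]
    have h5 : ((wtP 𝕜) a b F).trailingCoeff = ((wtP 𝕜) a b F).coeff (a * b * N) := by
      rw [Polynomial.trailingCoeff, h4]
    rw [← h5] at h0
    obtain ⟨f, rfl⟩ := hker F a1
    rw [map_mul, Polynomial.trailingCoeff_mul, map_mul, hh, zero_mul] at h0
    exact h0 rfl)
  exact ⟨V, hV, h1 0, h1 1, h1 2⟩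

end

end Pool.Agent.H68.RJ.Ram
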