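import Mathlib
import Pool.Agent.H68.RJ.RD

set_option autoImplicit false

namespace Pool.Agent.H68.RJ.Ram

open MvPolynomial
open Pool.Agent.H68.RJ.Ramanujam (cubic conic)

noncomputable section

universe u v

variable {𝕜 : Type u} [Field 𝕜] [IsAlgClosed 𝕜] [CharZero 𝕜]


variable {K : Type v} [Field K] [Algebra 𝕜 K]

/-- `V` is a place at infinity of the curve -/
def Inf (θ : (MvPolynomial (Fin 2) 𝕜) →ₐ[𝕜] K) (V : ValuationSubring K) : Prop :=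
  ∃ i j : ℕ, 2 ≤ i + j ∧ i + j ≤ 5 ∧ θ (X 0 ^ i * X 1 ^ j) / θ (cubic * conic) ∉ V

/-- the situation of the main lemma -/
structure Hyp (θ : (MvPolynomial (Fin 2) 𝕜) →ₐ[𝕜] K) (h : (MvPolynomial (Fin 2) 𝕜)) : Prop where
  irr : Irreducible h
  ker : ∀ F, θ F = 0 → h ∣ F
  cubne : θ cubic ≠ 0
  con : θ conic ≠ 0
  uniq : ∀ V V' : ValuationSubring K, (CstP 𝕜) V → (CstP 𝕜) V' → Inf θ V → Inf θ V' → V = V'

lemma theta_cubic (θ : (MvPolynomial (Fin 2) 𝕜) →ₐ[𝕜] K) : θ cubic = θ (X 1) - θ (X 0) ^ 3 + 5 * θ (X 0) ^ 2 := by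
  rw [cubic]
  simp only [map_add, map_sub, map_mul, map_pow, map_ofNat]

lemma theta_conic (θ : (MvPolynomial (Fin 2) 𝕜) →ₐ[𝕜] K) : θ conic = θ (X 1) ^ 2 + 15 * θ (X 0) * θ (X 1) +
    55 * θ (X 0) ^ 2 - 5 * θ (X 1) - 32 * θ (X 0) := by
  rw [conic]
  simp only [map_add, map_sub, map_mul, map_pow, map_ofNat]

lemma eval_cubic (a b : 𝕜) : eval ![a, b] cubic = b - a ^ 3 + 5 * a ^ 2 := by
  rw [cubic]
  simp

lemma eval_conic (a b : 𝕜) : eval ![a, b] conic =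
    b ^ 2 + 15 * a * b + 55 * a ^ 2 - 5 * b - 32 * a := by
  rw [conic]
  simp

section places

variable {θ : MvPolynomial (Fin 2) 𝕜 →ₐ[𝕜] K} {h : MvPolynomial (Fin 2) 𝕜} {V : ValuationSubring K}

lemma AtP.theta (hV : (CstP 𝕜) V) {a b : 𝕜} (ha : (AtP 𝕜) V (θ (X 0)) a) (hb : (AtP 𝕜) V (θ (X 1)) b) (F : (MvPolynomial (Fin 2) 𝕜)) :
    (AtP 𝕜) V (θ F) (eval ![a, b] F) := by
  rw [← aeval_theta]
  apply AtP.poly hV
  intro i
  fin_cases i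
  · exact ha
  · exact hb

lemma AtP.ofNat (hV : (CstP 𝕜) V) (n : ℕ) [n.AtLeastTwo] : (AtP 𝕜) V (OfNat.ofNat n : K) (OfNat.ofNat n) := by
  have := AtP.const V (OfNat.ofNat n : 𝕜)
  rwa [map_ofNat] at this

lemma inf_affine (H : Hyp θ h) (hV : (CstP 𝕜) V) {a b : 𝕜} (ha : (AtP 𝕜) V (θ (X 0)) a)
    (hb : (AtP 𝕜) V (θ (X 1)) b) (h0 : a ≠ 0 ∨ b ≠ 0) (he : eval ![a, b] (cubic * conic) = 0) :
    Inf θ V := by
  have h1 : θ (cubic * conic) ≠ 0 := by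
    rw [map_mul]
    exact mul_ne_zero H.cubne H.con
  have h2 := ha.theta hV hb (cubic * conic)
  rw [he] at h2
  rcases h0 with h0 | h0
  · refine ⟨2, 0, by norm_num, by norm_num, ?_⟩
    refine not_mem_div hV (ha.theta hV hb _) ?_ h2.val_lt_one h1
    simpa using h0
  · refine ⟨0, 2, by norm_num, by norm_num, ?_⟩
    refine not_mem_div hV (ha.theta hV hb _) ?_ h2.val_lt_one h1
    simpa using h0

lemma inf_aux (H : Hyp θ h) (hV : (CstP 𝕜) V) {i j : ℕ} (hi : 2 ≤ i + j) (hj : i + j ≤ 5)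
    (hm : θ (X 0 ^ i * X 1 ^ j) ≠ 0) (g : K)
    (hg : θ (cubic * conic) / θ (X 0 ^ i * X 1 ^ j) = g) (h0 : (AtP 𝕜) V g 0) : Inf θ V := by
  have h1 : θ (cubic * conic) ≠ 0 := by
    rw [map_mul]
    exact mul_ne_zero H.cubne H.con
  refine ⟨i, j, hi, hj, ?_⟩
  have h2 : θ (X 0 ^ i * X 1 ^ j) / θ (cubic * conic) = 1 / g := by
    rw [← hg, one_div, inv_div]
  rw [h2]
  refine not_mem_div hV (AtP.one V) one_ne_zero h0.val_lt_one ?_
  rw [← hg]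
  exact div_ne_zero h1 hm

lemma inf_cusp (H : Hyp θ h) (hV : (CstP 𝕜) V) (hy : θ (X 1) ≠ 0) (h1 : (AtP 𝕜) V (θ (X 0) / θ (X 1)) 0)
    (h2 : (AtP 𝕜) V (θ (X 1))⁻¹ 0) : Inf θ V := by
  set x := θ (X 0) with hx'
  set y := θ (X 1) with hy'
  refine inf_aux H hV (i := 0) (j := 5) (by norm_num) (by norm_num) ?_
    ((y⁻¹ ^ 2 - (x / y) ^ 3 + 5 * (x / y) ^ 2 * y⁻¹) *
      (1 + 15 * (x / y) + 55 * (x / y) ^ 2 - 5 * y⁻¹ - 32 * (x / y) * y⁻¹)) ?_ ?_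
  · simpa using pow_ne_zero 5 hy
  · rw [map_mul, theta_cubic, theta_conic, map_mul, map_pow, map_pow, ← hx', ← hy']
    field_simp
    try ring
  · have e1 := (((h2.pow hV 2).sub (h1.pow hV 3)).add
      (((AtP.ofNat hV 5).mul hV (h1.pow hV 2)).mul hV h2)).mul hV
      ((((((AtP.one V).add ((AtP.ofNat hV 15).mul hV h1)).add
        ((AtP.ofNat hV 55).mul hV (h1.pow hV 2))).sub ((AtP.ofNat hV 5).mul hV h2)).sub
        (((AtP.ofNat hV 32).mul hV h1).mul hV h2)))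
    convert e1 using 1
    norm_num

lemma inf_Qinf (H : Hyp θ h) (hV : (CstP 𝕜) V) (hx : θ (X 0) ≠ 0) {s : 𝕜}
    (hs : s ^ 2 + 15 * s + 55 = 0) (h1 : (AtP 𝕜) V (θ (X 1) / θ (X 0)) s)
    (h2 : (AtP 𝕜) V (θ (X 0))⁻¹ 0) : Inf θ V := by
  set x := θ (X 0) with hx'
  set y := θ (X 1) with hy'
  refine inf_aux H hV (i := 5) (j := 0) (by norm_num) (by norm_num) ?_
    (((y / x) * x⁻¹ ^ 2 - 1 + 5 * x⁻¹) *
      ((y / x) ^ 2 + 15 * (y / x) + 55 - 5 * (y / x) * x⁻¹ - 32 * x⁻¹)) ?_ ?_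
  · simpa using pow_ne_zero 5 hx
  · rw [map_mul, theta_cubic, theta_conic, map_mul, map_pow, map_pow, ← hx', ← hy']
    field_simp
    try ring
  · have e1 := (((h1.mul hV (h2.pow hV 2)).sub (AtP.one V)).add ((AtP.ofNat hV 5).mul hV h2)).mul hV
      (((((h1.pow hV 2).add ((AtP.ofNat hV 15).mul hV h1)).add (AtP.ofNat hV 55)).sub
        (((AtP.ofNat hV 5).mul hV h1).mul hV h2)).sub ((AtP.ofNat hV 32).mul hV h2))
    convert e1 using 1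
    linear_combination hs

lemma inf_E (H : Hyp θ h) (hV : (CstP 𝕜) V) (hx : θ (X 0) ≠ 0) {s : 𝕜}
    (hs : s * (5 * s + 32) = 0) (h1 : (AtP 𝕜) V (θ (X 1) / θ (X 0)) s)
    (h2 : (AtP 𝕜) V (θ (X 0)) 0) : Inf θ V := by
  set x := θ (X 0) with hx'
  set y := θ (X 1) with hy'
  refine inf_aux H hV (i := 2) (j := 0) (by norm_num) (by norm_num) ?_
    (((y / x) - x ^ 2 + 5 * x) *
      ((y / x) ^ 2 * x + 15 * (y / x) * x + 55 * x - 5 * (y / x) - 32)) ?_ ?_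
  · simpa using pow_ne_zero 2 hx
  · rw [map_mul, theta_cubic, theta_conic, map_mul, map_pow, map_pow, ← hx', ← hy']
    field_simp
    try ring
  · have e1 := ((h1.sub (h2.pow hV 2)).add ((AtP.ofNat hV 5).mul hV h2)).mul hV
      ((((((h1.pow hV 2).mul hV h2).add (((AtP.ofNat hV 15).mul hV h1).mul hV h2)).add
        ((AtP.ofNat hV 55).mul hV h2)).sub ((AtP.ofNat hV 5).mul hV h1)).sub (AtP.ofNat hV 32))
    convert e1 using 1
    linear_combination hs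

end places

end

end Pool.Agent.H68.RJ.Ram
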