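import Mathlib
import Pool.Agent.H68.RJ.RE

set_option autoImplicit false

namespace Pool.Agent.H68.RJ.Ram

open MvPolynomial
open Pool.Agent.H68.RJ.Ramanujam (cubic conic)

noncomputable section

universe u v

variable {𝕜 : Type u} [Field 𝕜] [IsAlgClosed 𝕜] [CharZero 𝕜]


variable {K : Type v} [Field K] [Algebra 𝕜 K] {θ : MvPolynomial (Fin 2) 𝕜 →ₐ[𝕜] K} {h : MvPolynomial (Fin 2) 𝕜}

/-- the place `V` lies over a point of the conic -/
def OnQ (θ : (MvPolynomial (Fin 2) 𝕜) →ₐ[𝕜] K) (V : ValuationSubring K) : Prop :=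
  (∃ a b : 𝕜, (a ≠ 0 ∨ b ≠ 0) ∧ (AtP 𝕜) V (θ (X 0)) a ∧ (AtP 𝕜) V (θ (X 1)) b ∧
    b ^ 2 + 15 * a * b + 55 * a ^ 2 - 5 * b - 32 * a = 0) ∨
  (∃ s : 𝕜, s ^ 2 + 15 * s + 55 = 0 ∧ (AtP 𝕜) V (θ (X 1) / θ (X 0)) s ∧ (AtP 𝕜) V (θ (X 0))⁻¹ 0) ∨
  ((AtP 𝕜) V (θ (X 0)) 0 ∧ (AtP 𝕜) V (θ (X 1) / θ (X 0)) (-32 / 5))

/-- the place `V` lies over a point of the cubic -/
def OnC (θ : (MvPolynomial (Fin 2) 𝕜) →ₐ[𝕜] K) (V : ValuationSubring K) : Prop :=
  (∃ t : 𝕜, t ≠ 0 ∧ (AtP 𝕜) V (θ (X 0)) t ∧ (AtP 𝕜) V (θ (X 1)) (t ^ 3 - 5 * t ^ 2)) ∨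
  ((AtP 𝕜) V (θ (X 0) / θ (X 1)) 0 ∧ (AtP 𝕜) V (θ (X 1))⁻¹ 0) ∨
  ((AtP 𝕜) V (θ (X 0)) 0 ∧ (AtP 𝕜) V (θ (X 1) / θ (X 0)) 0)

lemma OnQ.inf (H : Hyp θ h) (hx : θ (X 0) ≠ 0) {V : ValuationSubring K} (hV : (CstP 𝕜) V)
    (hQ : OnQ θ V) : Inf θ V := by
  rcases hQ with ⟨a, b, h0, ha, hb, he⟩ | ⟨s, hs, h1, h2⟩ | ⟨h1, h2⟩
  · refine inf_affine H hV ha hb h0 ?_
    rw [map_mul, eval_conic, he, mul_zero]
  · exact inf_Qinf H hV hx hs h1 h2
  · exact inf_E H hV hx (by norm_num) h2 h1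

lemma OnC.inf (H : Hyp θ h) (hx : θ (X 0) ≠ 0) (hy : θ (X 1) ≠ 0) {V : ValuationSubring K}
    (hV : (CstP 𝕜) V) (hC : OnC θ V) : Inf θ V := by
  rcases hC with ⟨t, h0, h1, h2⟩ | ⟨h1, h2⟩ | ⟨h1, h2⟩
  · refine inf_affine H hV h1 h2 (Or.inl h0) ?_
    rw [map_mul, eval_cubic]
    ring
  · exact inf_cusp H hV hy h1 h2
  · exact inf_E H hV hx (by norm_num) h2 h1

lemma AtP.not_inv {V : ValuationSubring K} (hV : (CstP 𝕜) V) {f : K} (hf : f ≠ 0) {a : 𝕜}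
    (h1 : (AtP 𝕜) V f a) (h2 : (AtP 𝕜) V f⁻¹ 0) : False := by
  have h3 := h1.mul hV h2
  rw [mul_inv_cancel₀ hf, mul_zero] at h3
  exact one_ne_zero ((AtP.one V).unique hV h3)

/-- a place over the cubic and over the conic -/
lemma center (hx : θ (X 0) ≠ 0) (hy : θ (X 1) ≠ 0) {V : ValuationSubring K} (hV : (CstP 𝕜) V)
    (hC : OnC θ V) (hQ : OnQ θ V) : (AtP 𝕜) V (θ (X 0)) 2 ∧ (AtP 𝕜) V (θ (X 1)) (-12) := by
  have hyx : θ (X 1) / θ (X 0) * θ (X 0) = θ (X 1) := div_mul_cancel₀ _ hx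
  have hxy : θ (X 0) / θ (X 1) * θ (X 1) = θ (X 0) := div_mul_cancel₀ _ hy
  have hinv : (θ (X 1) / θ (X 0))⁻¹ = θ (X 0) / θ (X 1) := inv_div _ _
  have hne : θ (X 1) / θ (X 0) ≠ 0 := div_ne_zero hy hx
  rcases hC with ⟨t, h0, h1, h2⟩ | ⟨h1, h2⟩ | ⟨h1, h2⟩
  · rcases hQ with ⟨a, b, -, ha, hb, he⟩ | ⟨s, hs, h3, h4⟩ | ⟨h3, h4⟩
    · have e1 := h1.unique hV ha
      have e2 := h2.unique hV hb
      subst e1
      subst e2
      have e3 : t * (t - 2) ^ 5 = 0 := by linear_combination he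
      have e4 : t = 2 := by
        rcases mul_eq_zero.1 e3 with h | h
        · exact absurd h h0
        · exact sub_eq_zero.1 (pow_eq_zero_iff (by norm_num) |>.1 h)
      subst e4
      refine ⟨h1, ?_⟩
      convert h2 using 1
      norm_num
    · exact (h1.not_inv hV hx h4).elim
    · exact (h0 (h1.unique hV h3)).elim
  · rcases hQ with ⟨a, b, -, ha, hb, he⟩ | ⟨s, hs, h3, h4⟩ | ⟨h3, h4⟩
    · exact (hb.not_inv hV hy h2).elim
    · rw [← hinv] at h1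
      exact (h3.not_inv hV hne h1).elim
    · rw [← hinv] at h1
      exact (h4.not_inv hV hne h1).elim
  · rcases hQ with ⟨a, b, h0, ha, hb, he⟩ | ⟨s, hs, h3, h4⟩ | ⟨h3, h4⟩
    · have e1 := ha.unique hV h1
      have e2 := h2.mul hV h1
      rw [hyx, mul_zero] at e2
      have e3 := hb.unique hV e2
      rcases h0 with h0 | h0
      · exact (h0 e1).elim
      · exact (h0 e3).elim
    · exact (h1.not_inv hV hx h4).elim
    · have := h2.unique hV h4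
      norm_num at this

/-- a root of the restriction to the conic gives a place -/
lemma root_place (H : Hyp θ h) (hx : θ (X 0) ≠ 0) {s : 𝕜} (hs : (G0 h).eval s = 0) :
    ∃ V : ValuationSubring K, (CstP 𝕜) V ∧ OnQ θ V ∧
      (((DelP 𝕜)).eval s = 0 ∧ (AtP 𝕜) V (θ (X 0))⁻¹ 0 ∨ ((rhoP 𝕜)).eval s = 0 ∧ (AtP 𝕜) V (θ (X 0)) 0 ∨
        (AtP 𝕜) V (θ (X 0)) (((rhoP 𝕜)).eval s / ((DelP 𝕜)).eval s) ∧
          (AtP 𝕜) V (θ (X 1)) ((s - 6) * (((rhoP 𝕜)).eval s / ((DelP 𝕜)).eval s))) := by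
  have hirr := H.irr
  have hkd : ord h ≤ h.totalDegree := by
    have h1 : (wtP 𝕜) 1 1 h ≠ 0 := fun h0 => hirr.ne_zero (wt_inj 1 1 h0)
    obtain ⟨n, hn⟩ := MvPolynomial.ne_zero_iff.1 hirr.ne_zero
    exact (ord_le hn).trans (le_totalDegree (mem_support_iff.2 hn))
  by_cases hD : ((DelP 𝕜)).eval s = 0
  · have hr : ((rhoP 𝕜)).eval s ≠ 0 := by
      rw [rho_eval]
      intro h0
      rw [Del_eval] at hD
      have : s = -2 / 5 := by linear_combination (1 / 5 : 𝕜) * h0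
      rw [this] at hD
      norm_num at hD
    have h1 : (Hc h h.totalDegree).eval s = 0 := by
      rw [G0_eval, Finset.sum_eq_single h.totalDegree] at hs
      · rw [Nat.sub_self, pow_zero, mul_one] at hs
        exact (mul_eq_zero.1 hs).resolve_right (pow_ne_zero _ hr)
      · intro m hm hne
        rw [Finset.mem_Icc] at hm
        rw [hD, zero_pow (by omega), mul_zero]
      · intro hn
        rw [Finset.mem_Icc] at hn
        omega
    rw [← ray_eq_eval] at h1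
    obtain ⟨V, hV, h2, h3⟩ := place_infty H.ker 0 1 ![1, s - 6] hx rfl h1
    have h2' : (AtP 𝕜) V (θ (X 1) / θ (X 0)) (s - 6) := h2
    refine ⟨V, hV, Or.inr (Or.inl ⟨s - 6, ?_, h2', h3⟩), Or.inl ⟨hD, h3⟩⟩
    rw [Del_eval] at hD
    linear_combination hD
  · by_cases hr : ((rhoP 𝕜)).eval s = 0
    · have h1 : (Hc h (ord h)).eval s = 0 := by
        rw [G0_eval, Finset.sum_eq_single (ord h)] at hs
        · rw [Nat.sub_self, pow_zero, mul_one] at hs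
          exact (mul_eq_zero.1 hs).resolve_right (pow_ne_zero _ hD)
        · intro m hm hne
          rw [Finset.mem_Icc] at hm
          rw [hr, zero_pow (by omega), mul_zero, zero_mul]
        · intro hn
          rw [Finset.mem_Icc] at hn
          omega
      rw [← wt_eq_eval] at h1
      obtain ⟨V, hV, h2, -, h3⟩ := place_wt H.ker 1 1 one_pos one_pos (s - 6) hx h1
      rw [pow_one, pow_one, pow_one] at h3
      refine ⟨V, hV, Or.inr (Or.inr ⟨h2, ?_⟩), Or.inr (Or.inl ⟨hr, h2⟩)⟩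
      convert h3 using 1
      rw [rho_eval] at hr
      linear_combination (-1 / 5 : 𝕜) * hr
    · have h1 := G0_rel h hD
      rw [hs, mul_zero] at h1
      have h2 := (mul_eq_zero.1 h1).resolve_left (pow_ne_zero _ hD)
      obtain ⟨V, hV, h3⟩ := place_affine H.ker h2
      have h4 := h3 0
      have h5 := h3 1
      simp only [Matrix.cons_val_zero, Matrix.cons_val_one, Matrix.cons_val_fin_one] at h4 h5
      refine ⟨V, hV, Or.inl ⟨_, _, Or.inl (div_ne_zero hr hD), h4, h5, ?_⟩, Or.inr (Or.inr ⟨h4, h5⟩)⟩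
      have e : ((rhoP 𝕜)).eval s / ((DelP 𝕜)).eval s * ((DelP 𝕜)).eval s = ((rhoP 𝕜)).eval s := div_mul_cancel₀ _ hD
      set w := ((rhoP 𝕜)).eval s / ((DelP 𝕜)).eval s with hw
      rw [rho_eval, Del_eval] at e
      linear_combination w * e

lemma exQ (H : Hyp θ h) (hx : θ (X 0) ≠ 0) : ∃ V : ValuationSubring K, (CstP 𝕜) V ∧ OnQ θ V := by
  by_cases h0 : (G0 h).coeff (2 * h.totalDegree - ord h) = 0
  · have h1 := G0_coeff h
    rw [h0, mul_zero] at h1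
    obtain ⟨V, hV, h3⟩ := place_affine H.ker h1.symm
    exact ⟨V, hV, Or.inl ⟨0, 5, Or.inr (by norm_num), h3 0, h3 1, by norm_num⟩⟩
  · have hirr := H.irr
    have hd : h.totalDegree ≠ 0 := by
      intro h0
      rw [totalDegree_eq_zero_iff_eq_C] at h0
      apply hirr.not_isUnit
      rw [h0]
      apply IsUnit.map
      rw [isUnit_iff_ne_zero]
      intro h2
      rw [h2, C_0] at h0
      exact hirr.ne_zero h0
    have hkd : ord h ≤ h.totalDegree := by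
      obtain ⟨n, hn⟩ := MvPolynomial.ne_zero_iff.1 hirr.ne_zero
      exact (ord_le hn).trans (le_totalDegree (mem_support_iff.2 hn))
    have h1 : (G0 h).degree ≠ 0 := by
      intro h2
      have h3 := Polynomial.le_natDegree_of_ne_zero h0
      rw [Polynomial.natDegree_eq_zero_iff_degree_le_zero.2 h2.le] at h3
      omega
    obtain ⟨s, hs⟩ := IsAlgClosed.exists_root (G0 h) h1
    obtain ⟨V, hV, h2, -⟩ := root_place H hx hs
    exact ⟨V, hV, h2⟩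

lemma totalDegree_pos (H : Hyp θ h) : 1 ≤ h.totalDegree := by
  have hirr := H.irr
  rw [Nat.one_le_iff_ne_zero]
  intro h0
  rw [totalDegree_eq_zero_iff_eq_C] at h0
  apply hirr.not_isUnit
  rw [h0]
  apply IsUnit.map
  rw [isUnit_iff_ne_zero]
  intro h2
  rw [h2, C_0] at h0
  exact hirr.ne_zero h0

lemma cub_eval (F : (MvPolynomial (Fin 2) 𝕜)) (t : 𝕜) : ((cubP 𝕜) F).eval t = eval ![t, t ^ 3 - 5 * t ^ 2] F := by
  rw [← Polynomial.coe_aeval_eq_eval, cubP]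
  have : ((Polynomial.aeval t : Polynomial 𝕜 →ₐ[𝕜] 𝕜).comp
      (aeval ![Polynomial.X, Polynomial.X ^ 3 - 5 * Polynomial.X ^ 2] :
        (MvPolynomial (Fin 2) 𝕜) →ₐ[𝕜] Polynomial 𝕜)) = (aeval ![t, t ^ 3 - 5 * t ^ 2] : (MvPolynomial (Fin 2) 𝕜) →ₐ[𝕜] 𝕜) := by
    apply MvPolynomial.algHom_ext
    intro i
    fin_cases i <;> simp
  have h2 := congrArg (fun f : (MvPolynomial (Fin 2) 𝕜) →ₐ[𝕜] 𝕜 => f F) this
  simp only [AlgHom.comp_apply] at h2
  rw [h2, aeval_eq_eval]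

lemma cusp_place (H : Hyp θ h) (hy : θ (X 1) ≠ 0)
    (h0 : ((rayP 𝕜) ![0, 1] h).coeff h.totalDegree = 0) : ∃ V : ValuationSubring K, (CstP 𝕜) V ∧
      (AtP 𝕜) V (θ (X 0) / θ (X 1)) 0 ∧ (AtP 𝕜) V (θ (X 1))⁻¹ 0 :=
  place_infty H.ker 1 0 ![0, 1] hy rfl h0

lemma cub_place (H : Hyp θ h) {t : 𝕜} (h0 : ((cubP 𝕜) h).eval t = 0) :
    ∃ V : ValuationSubring K, (CstP 𝕜) V ∧ (AtP 𝕜) V (θ (X 0)) t ∧ (AtP 𝕜) V (θ (X 1)) (t ^ 3 - 5 * t ^ 2) := by
  rw [cub_eval] at h0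
  obtain ⟨V, hV, h3⟩ := place_affine H.ker h0
  exact ⟨V, hV, h3 0, h3 1⟩

lemma exC (H : Hyp θ h) (hy : θ (X 1) ≠ 0) : ∃ V : ValuationSubring K, (CstP 𝕜) V ∧ OnC θ V := by
  by_cases h0 : ((rayP 𝕜) ![0, 1] h).coeff h.totalDegree = 0
  · obtain ⟨V, hV, h1, h2⟩ := cusp_place H hy h0
    exact ⟨V, hV, Or.inr (Or.inl ⟨h1, h2⟩)⟩
  · by_cases h1 : ∃ t : 𝕜, t ≠ 0 ∧ ((cubP 𝕜) h).eval t = 0
    · obtain ⟨t, ht, h2⟩ := h1
      obtain ⟨V, hV, h3, h4⟩ := cub_place H h2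
      exact ⟨V, hV, Or.inl ⟨t, ht, h3, h4⟩⟩
    · exfalso
      have hd := totalDegree_pos H
      push Not at h1
      have h2 := one_root (p := (cubP 𝕜) h) (r := 0) (fun z hz => by
        by_contra hne
        exact h1 z hne hz)
      have h3 := cub_coeff' h hd
      have h4 : ((cubP 𝕜) h).natDegree = 3 * h.totalDegree := by
        apply le_antisymm (cub_natDegree h)
        apply Polynomial.le_natDegree_of_ne_zero
        rw [cub_coeff]
        exact h0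
      rw [h4, Polynomial.C_0, sub_zero] at h2
      rw [h2, Polynomial.coeff_C_mul_X_pow, if_neg (by omega)] at h3
      symm at h3
      rcases mul_eq_zero.1 h3 with h5 | h5
      · rcases mul_eq_zero.1 h5 with h6 | h6
        · norm_num at h6
        · rw [Nat.cast_eq_zero] at h6
          omega
      · exact h0 h5

end

end Pool.Agent.H68.RJ.Ram
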