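import Mathlib
import Pool.Agent.H68.RJ.RH

set_option autoImplicit false

namespace Pool.Agent.H68.RJ.Ram

open MvPolynomial
open Pool.Agent.H68.RJ.Ramanujam (cubic conic)

noncomputable section

universe u v

variable {𝕜 : Type u} [Field 𝕜] [IsAlgClosed 𝕜] [CharZero 𝕜]


variable {K : Type v} [Field K] [Algebra 𝕜 K] {θ : MvPolynomial (Fin 2) 𝕜 →ₐ[𝕜] K} {h : MvPolynomial (Fin 2) 𝕜}

variable (𝕜) in
/-- the substitution `y = 0` -/
def res0P : (MvPolynomial (Fin 2) 𝕜) →ₐ[𝕜] Polynomial 𝕜 := aeval ![Polynomial.X, 0]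


lemma res0_monomial (n : Fin 2 →₀ ℕ) (c : 𝕜) :
    (res0P 𝕜) (monomial n c) = if n 1 = 0 then Polynomial.monomial (n 0) c else 0 := by
  rw [res0P, aeval_monomial, Finsupp.prod_fintype _ _ (fun _ => pow_zero _)]
  simp only [Fin.prod_univ_two, Matrix.cons_val_zero, Matrix.cons_val_one, Matrix.cons_val_fin_one]
  split_ifs with h0
  · rw [h0, pow_zero, mul_one, Polynomial.algebraMap_eq, Polynomial.C_mul_X_pow_eq_monomial]
  · rw [zero_pow h0, mul_zero, mul_zero]

lemma res0_coeff (T : (MvPolynomial (Fin 2) 𝕜)) (j : ℕ) : ((res0P 𝕜) T).coeff j = coeff (Finsupp.single 0 j) T := by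
  induction T using MvPolynomial.induction_on' with
  | add p q hp hq => rw [map_add, Polynomial.coeff_add, hp, hq, coeff_add]
  | monomial n c =>
    rw [res0_monomial, coeff_monomial]
    by_cases h0 : n = Finsupp.single 0 j
    · rw [if_pos h0, h0]
      simp
    · rw [if_neg h0]
      split_ifs with h1
      · rw [Polynomial.coeff_monomial, if_neg]
        intro h2
        apply h0
        ext i
        fin_cases i
        · simpa using h2
        · simpa using h1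
      · rw [Polynomial.coeff_zero]

lemma res0_tau (F : (MvPolynomial (Fin 2) 𝕜)) : (res0P 𝕜) ((tauP 𝕜) F) = ((cubP 𝕜) F).comp (Polynomial.X + Polynomial.C 2) := by
  have : ((res0P 𝕜)).comp (tauP 𝕜) = (Polynomial.aeval (Polynomial.X + Polynomial.C 2 : Polynomial 𝕜) :
      Polynomial 𝕜 →ₐ[𝕜] Polynomial 𝕜).comp (cubP 𝕜) := by
    apply MvPolynomial.algHom_ext
    intro i
    fin_cases i
    · show (res0P 𝕜) ((tauP 𝕜) (X 0)) = Polynomial.aeval (Polynomial.X + Polynomial.C 2) ((cubP 𝕜) (X 0))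
      rw [tau_x0, cubP, aeval_X, map_add, res0P, aeval_X, map_ofNat]
      simp only [Matrix.cons_val_zero, Polynomial.aeval_X, map_ofNat]
    · show (res0P 𝕜) ((tauP 𝕜) (X 1)) = Polynomial.aeval (Polynomial.X + Polynomial.C 2) ((cubP 𝕜) (X 1))
      rw [tau_x1, cubP, aeval_X, res0P]
      simp only [map_add, map_sub, map_mul, map_pow, aeval_X, map_ofNat, Matrix.cons_val_zero,
        Matrix.cons_val_one, Matrix.cons_val_fin_one, Polynomial.aeval_X]
      ring
  have h1 := congrArg (fun f : (MvPolynomial (Fin 2) 𝕜) →ₐ[𝕜] Polynomial 𝕜 => f F) this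
  exact h1

lemma axis (H : Hyp θ h) (hx : θ (X 0) ≠ 0) (hy : θ (X 1) ≠ 0) :
    Finsupp.single 0 (5 * ord h) ∈ ((tauP 𝕜) h).support ∧
      ∀ n ∈ ((tauP 𝕜) h).support, n 1 = 0 → 5 * ord h ≤ n 0 := by
  obtain ⟨h1, h2, ⟨c, hc, h3⟩, -⟩ := class_eq H hx hy
  have h4 : (res0P 𝕜) ((tauP 𝕜) h) = (Polynomial.C c * (Polynomial.X + Polynomial.C 2) ^ ord h) *
      Polynomial.X ^ (5 * ord h) := by
    rw [res0_tau, h3]
    simp [Polynomial.mul_comp, Polynomial.pow_comp]
  constructor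
  · rw [mem_support_iff, ← res0_coeff, h4, Polynomial.coeff_mul_X_pow', if_pos le_rfl, Nat.sub_self,
      Polynomial.coeff_C_mul, Polynomial.coeff_X_add_C_pow]
    simpa using hc
  · intro n hn hn1
    by_contra hlt
    have e : n = Finsupp.single 0 (n 0) := by
      ext i
      fin_cases i
      · simp
      · simpa using hn1
    rw [mem_support_iff, e, ← res0_coeff, h4, Polynomial.coeff_mul_X_pow', if_neg (by omega)] at hn
    exact hn rfl

lemma axis' (H : Hyp θ h) (hx : θ (X 0) ≠ 0) (hy : θ (X 1) ≠ 0) :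
    ∃ n ∈ ((tauP 𝕜) h).support, n 0 = 0 := by
  by_contra hcon
  push Not at hcon
  have hk := (class_eq H hx hy).1
  have h1 : X 0 ∣ (tauP 𝕜) h := by
    rw [((tauP 𝕜) h).as_sum]
    apply Finset.dvd_sum
    intro n hn
    rw [X_dvd_monomial]
    exact Or.inr (hcon n hn)
  obtain ⟨g, hg⟩ := h1
  have hirr : Irreducible ((tauP 𝕜) h) := by
    refine ⟨fun hu => H.irr.not_isUnit ?_, ?_⟩
    · have := hu.map (tauP' 𝕜)
      rwa [tau'_tau] at this
    · intro a b hab
      have h2 : h = (tauP' 𝕜) a * (tauP' 𝕜) b := by rw [← map_mul, ← hab, tau'_tau]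
      rcases H.irr.isUnit_or_isUnit h2 with h3 | h3
      · left
        have := h3.map (tauP 𝕜)
        rwa [tau_tau'] at this
      · right
        have := h3.map (tauP 𝕜)
        rwa [tau_tau'] at this
  rcases hirr.isUnit_or_isUnit hg with h2 | h2
  · have := h2.map (eval (fun _ => (0 : 𝕜)) : (MvPolynomial (Fin 2) 𝕜) →+* 𝕜)
    rw [eval_X] at this
    exact not_isUnit_zero this
  · have h3 := (axis H hx hy).1
    rw [MvPolynomial.isUnit_iff_eq_C_of_isReduced] at h2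
    obtain ⟨r, hr, hr'⟩ := h2
    rw [mem_support_iff, hg, hr', mul_comm (X 0 : (MvPolynomial (Fin 2) 𝕜)), coeff_C_mul, X, coeff_monomial, if_neg, mul_zero] at h3
    · exact h3 rfl
    · intro he
      have := congrArg (fun f : Fin 2 →₀ ℕ => f 0) he
      simp at this
      omega

/-- the Newton polygon of the curve in the point `p` -/
theorem np (H : Hyp θ h) (hx : θ (X 0) ≠ 0) (hy : θ (X 1) ≠ 0) :
    ∃ m : ℕ, 1 ≤ m ∧ Finsupp.single 1 m ∈ ((tauP 𝕜) h).support ∧
      ∀ n ∈ ((tauP 𝕜) h).support, 5 * ord h * m ≤ m * n 0 + 5 * ord h * n 1 := by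
  obtain ⟨V, hV⟩ := exists_cen H hx hy
  have hk := (class_eq H hx hy).1
  obtain ⟨hax1, hax2⟩ := axis H hx hy
  set S := ((tauP 𝕜) h).support with hS
  set k := ord h with hkdef
  obtain ⟨n0, hn0, hn00⟩ := axis' H hx hy
  obtain ⟨nm, hnm, hmin⟩ := Finset.exists_min_image (S.filter (fun n => n 0 = 0)) (fun n => n 1)
    ⟨n0, Finset.mem_filter.2 ⟨hn0, hn00⟩⟩
  rw [Finset.mem_filter] at hnm
  obtain ⟨hnmS, hnm0⟩ := hnm
  set m := nm 1 with hm
  have hnm' : nm = Finsupp.single 1 m := by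
    ext i
    fin_cases i
    · simpa using hnm0
    · simp [hm]
  have hm1 : 1 ≤ m := by
    by_contra h0
    have := hax2 nm hnmS (by omega)
    omega
  have hmin' : ∀ n ∈ S, n 0 = 0 → m ≤ n 1 := fun n hn h0 => hmin n (Finset.mem_filter.2 ⟨hn, h0⟩)
  refine ⟨m, hm1, by rw [← hnm']; exact hnmS, ?_⟩
  have hs01 : (Finsupp.single (0 : Fin 2) (5 * k)) 1 = 0 := by simp
  have hs00 : (Finsupp.single (0 : Fin 2) (5 * k)) 0 = 5 * k := by simp
  -- the first edge
  obtain ⟨p, hp, hpmin⟩ := Finset.exists_min_image (S.filter (fun n => n 1 < m))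
    (fun n => (n 0 : ℚ) / ((m - n 1 : ℕ) : ℚ))
    ⟨Finsupp.single 0 (5 * k), Finset.mem_filter.2 ⟨hax1, by rw [hs01]; omega⟩⟩
  rw [Finset.mem_filter] at hp
  obtain ⟨hpS, hpm⟩ := hp
  have hp0 : 0 < p 0 := by
    rw [Nat.pos_iff_ne_zero]
    intro h0
    have := hmin' p hpS h0
    omega
  have E1 : ∀ n ∈ S, n 1 < m → p 0 * (m - n 1) ≤ n 0 * (m - p 1) := by
    intro n hn hnm
    have h1 := hpmin n (Finset.mem_filter.2 ⟨hn, hnm⟩)
    rw [div_le_div_iff₀ (by exact_mod_cast (by omega : 0 < m - p 1))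
      (by exact_mod_cast (by omega : 0 < m - n 1))] at h1
    exact_mod_cast h1
  obtain ⟨u, hu⟩ : ∃ u, m = p 1 + u := ⟨m - p 1, by omega⟩
  have hu0 : 0 < u := by omega
  have hmu : m - p 1 = u := by omega
  rw [hmu] at E1
  have F1 : ∀ n ∈ S, p 0 * m ≤ u * n 0 + p 0 * n 1 := by
    intro n hn
    by_cases hnm : n 1 < m
    · obtain ⟨v, hv⟩ : ∃ v, m = n 1 + v := ⟨m - n 1, by omega⟩
      have h1 := E1 n hn hnm
      rw [show m - n 1 = v by omega] at h1
      rw [hv]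
      nlinarith
    · have : p 0 * m ≤ p 0 * n 1 := Nat.mul_le_mul_left _ (by omega)
      omega
  obtain ⟨c1, hc1, hA1⟩ := edge_place H hx hy hV hu0 hp0 F1 nm p hnmS hpS
    (by rw [hnm0, ← hm]; ring) (by rw [hu]; ring) (by rw [← hm]; omega)
  -- the second edge
  obtain ⟨q, hq, hqmax⟩ := Finset.exists_max_image (S.filter (fun n => n 0 < 5 * k))
    (fun n => ((5 * k - n 0 : ℕ) : ℚ) / (n 1 : ℚ))
    ⟨nm, Finset.mem_filter.2 ⟨hnmS, by omega⟩⟩
  rw [Finset.mem_filter] at hq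
  obtain ⟨hqS, hqk⟩ := hq
  have hpos1 : ∀ n ∈ S, n 0 < 5 * k → 0 < n 1 := by
    intro n hn hnk
    rw [Nat.pos_iff_ne_zero]
    intro h0
    have := hax2 n hn h0
    omega
  have hq1 := hpos1 q hqS hqk
  have E2 : ∀ n ∈ S, n 0 < 5 * k → (5 * k - n 0) * q 1 ≤ (5 * k - q 0) * n 1 := by
    intro n hn hnk
    have h1 := hqmax n (Finset.mem_filter.2 ⟨hn, hnk⟩)
    rw [div_le_div_iff₀ (by exact_mod_cast hpos1 n hn hnk) (by exact_mod_cast hq1)] at h1
    exact_mod_cast h1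
  obtain ⟨w, hw⟩ : ∃ w, 5 * k = q 0 + w := ⟨5 * k - q 0, by omega⟩
  have hw0 : 0 < w := by omega
  rw [show 5 * k - q 0 = w by omega] at E2
  have F2 : ∀ n ∈ S, 5 * k * q 1 ≤ q 1 * n 0 + w * n 1 := by
    intro n hn
    by_cases hnk : n 0 < 5 * k
    · obtain ⟨v, hv⟩ : ∃ v, 5 * k = n 0 + v := ⟨5 * k - n 0, by omega⟩
      have h1 := E2 n hn hnk
      rw [show 5 * k - n 0 = v by omega] at h1
      rw [hv]
      nlinarith
    · have : 5 * k * q 1 ≤ q 1 * n 0 := by
        rw [mul_comm]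
        exact Nat.mul_le_mul_left _ (by omega)
      omega
  obtain ⟨c2, hc2, hA2⟩ := edge_place H hx hy hV hq1 hw0 F2 (Finsupp.single 0 (5 * k)) q hax1 hqS
    (by rw [hs00, hs01]; ring) (by rw [hw]; ring) (by rw [hs01]; omega)
  -- the slopes agree
  have hX0 : (θ.comp (tauP' 𝕜)) (X 0) ≠ 0 := by
    rw [comp_X0]
    exact X0_ne_two H hx hy
  have hAX : (AtP 𝕜) V ((θ.comp (tauP' 𝕜)) (X 0)) 0 := by
    rw [comp_X0]
    have := hV.x.sub (AtP.ofNat hV.cst 2)
    rwa [sub_self] at this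
  have hsl := slope_unique hV.cst hX0 hAX hc1 hc2 hA1 hA2
  -- conclusion
  have G1 : p 0 * m ≤ 5 * k * u := by
    have := F1 _ hax1
    rw [hs00, hs01, mul_zero, add_zero] at this
    rw [mul_comm (5 * k)]
    exact this
  have G2 : 5 * k * q 1 ≤ w * m := by
    have := F2 nm hnmS
    rw [hnm0, mul_zero, zero_add] at this
    exact this
  have G3 : 5 * k * u ≤ p 0 * m := by
    have h1 : q 1 * (5 * k * u) ≤ q 1 * (p 0 * m) := by
      calc q 1 * (5 * k * u) = (5 * k * q 1) * u := by ring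
        _ ≤ (w * m) * u := Nat.mul_le_mul_right _ G2
        _ = (u * w) * m := by ring
        _ = (q 1 * p 0) * m := by rw [hsl]
        _ = q 1 * (p 0 * m) := by ring
    exact Nat.le_of_mul_le_mul_left h1 hq1
  have G4 : p 0 * m = 5 * k * u := le_antisymm G1 G3
  intro n hn
  have h1 := F1 n hn
  have h2 : u * (5 * k * m) ≤ u * (m * n 0 + 5 * k * n 1) := by
    calc u * (5 * k * m) = (5 * k * u) * m := by ring
      _ = (p 0 * m) * m := by rw [G4]
      _ ≤ (u * n 0 + p 0 * n 1) * m := Nat.mul_le_mul_right _ h1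
      _ = u * (m * n 0) + (p 0 * m) * n 1 := by ring
      _ = u * (m * n 0) + (5 * k * u) * n 1 := by rw [G4]
      _ = u * (m * n 0 + 5 * k * n 1) := by ring
  exact Nat.le_of_mul_le_mul_left h2 hu0

end

end Pool.Agent.H68.RJ.Ram
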