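import Mathlib
import Pool.Agent.H68.RJ.RI

set_option autoImplicit false

namespace Pool.Agent.H68.RJ.Ram

open MvPolynomial
open Pool.Agent.H68.RJ.Ramanujam (cubic conic)

noncomputable section

universe u v

variable {𝕜 : Type u} [Field 𝕜] [IsAlgClosed 𝕜] [CharZero 𝕜]


/-- the restriction to a line, with values in an algebra -/
lemma aeval_line {R : Type u} [CommRing R] [Algebra 𝕜 R] (s x : R) (F : (MvPolynomial (Fin 2) 𝕜)) :
    aeval ![x, (s - 6) * x] F =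
      ∑ m ∈ Finset.Icc (ord F) F.totalDegree, Polynomial.aeval s (Hc F m) * x ^ m := by
  have h1 : aeval ![x, (s - 6) * x] F =
      ((linP 𝕜) F).eval₂ ((Polynomial.aeval s : Polynomial 𝕜 →ₐ[𝕜] R) : Polynomial 𝕜 →+* R) x := by
    have : ((aeval ![x, (s - 6) * x] : (MvPolynomial (Fin 2) 𝕜) →ₐ[𝕜] R) : (MvPolynomial (Fin 2) 𝕜) →+* R) =
        (Polynomial.eval₂RingHom
          ((Polynomial.aeval s : Polynomial 𝕜 →ₐ[𝕜] R) : Polynomial 𝕜 →+* R) x).comp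
          ((linP 𝕜) : (MvPolynomial (Fin 2) 𝕜) →+* Polynomial (Polynomial 𝕜)) := by
      apply MvPolynomial.ringHom_ext
      · intro r
        have e : ((linP 𝕜) : (MvPolynomial (Fin 2) 𝕜) →+* Polynomial (Polynomial 𝕜)) (C r) =
            Polynomial.C (Polynomial.C r) := by
          show (linP 𝕜) (C r) = _
          rw [linP, aeval_C]
          rfl
        rw [RingHom.comp_apply, e]
        simp
      · intro i
        fin_cases i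
        · simp [linP]
        · simp [linP, map_ofNat (Polynomial.aeval s : Polynomial 𝕜 →ₐ[𝕜] R) 6]
    exact congrArg (fun f : (MvPolynomial (Fin 2) 𝕜) →+* R => f F) this
  have h2 : ((linP 𝕜) F).natDegree < F.totalDegree + 1 := by
    rw [Nat.lt_succ_iff, Polynomial.natDegree_le_iff_coeff_eq_zero]
    intro N hN
    exact Hc_gt_deg F hN
  rw [h1, Polynomial.eval₂_eq_sum_range' _ h2]
  symm
  apply Finset.sum_subset_zero_on_sdiff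
  · intro m hm
    rw [Finset.mem_Icc] at hm
    rw [Finset.mem_range]
    omega
  · intro m hm
    rw [Finset.mem_sdiff, Finset.mem_range, Finset.mem_Icc] at hm
    have : ((linP 𝕜) F).coeff m = 0 := Hc_lt_ord F (by omega)
    rw [this, map_zero, zero_mul]
  · intro m hm
    rfl

/-! ### power series -/


variable (𝕜) in
abbrev sgP : (PowerSeries 𝕜) := PowerSeries.X


variable (𝕜) in
/-- a polynomial as a power series -/
def csP : Polynomial 𝕜 →ₐ[𝕜] (PowerSeries 𝕜) := Polynomial.aeval (sgP 𝕜)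


lemma cs_X : (csP 𝕜) Polynomial.X = (sgP 𝕜) := Polynomial.aeval_X _

lemma cs_eq (p : Polynomial 𝕜) : (csP 𝕜) p = (p : (PowerSeries 𝕜)) := by
  have : (csP 𝕜) = Polynomial.coeToPowerSeries.algHom (R := 𝕜) 𝕜 := by
    apply Polynomial.algHom_ext
    rw [cs_X]
    simp
  rw [this]
  simp

lemma cs_coeff (p : Polynomial 𝕜) (n : ℕ) : PowerSeries.coeff n ((csP 𝕜) p) = p.coeff n := by
  rw [cs_eq, Polynomial.coeff_coe]

variable (𝕜) in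
def rserP : (PowerSeries 𝕜) := (csP 𝕜) (rhoP 𝕜)


variable (𝕜) in
def DserP : (PowerSeries 𝕜) := (csP 𝕜) (DelP 𝕜)


lemma r_eq : (rserP 𝕜) = 5 * (sgP 𝕜) + 2 := by
  rw [rserP, rhoP]
  simp only [map_add, map_mul, map_ofNat, cs_X]

lemma D_eq : (DserP 𝕜) = (sgP 𝕜) ^ 2 + 3 * (sgP 𝕜) + 1 := by
  rw [DserP, DelP]
  simp only [map_add, map_mul, map_pow, map_ofNat, map_one, cs_X]

lemma r_const : PowerSeries.constantCoeff (rserP 𝕜) = (2 : 𝕜) := by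
  rw [r_eq, map_add, map_mul, PowerSeries.constantCoeff_X, mul_zero, zero_add, map_ofNat]

lemma D_const : PowerSeries.constantCoeff (DserP 𝕜) = (1 : 𝕜) := by
  rw [D_eq]
  simp

variable (𝕜) in
def DiP : (PowerSeries 𝕜) := (DserP 𝕜)⁻¹


lemma D_mul_Di : (DserP 𝕜) * (DiP 𝕜) = 1 := PowerSeries.mul_inv_cancel _ (by rw [D_const]; exact one_ne_zero)

lemma Di_const : PowerSeries.constantCoeff (DiP 𝕜) = (1 : 𝕜) := by
  have h := congrArg PowerSeries.constantCoeff (D_mul_Di (𝕜 := 𝕜))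
  rw [map_mul, D_const, one_mul, map_one] at h
  exact h

lemma r_unit : IsUnit (rserP 𝕜) := by
  rw [PowerSeries.isUnit_iff_constantCoeff, r_const]
  exact (isUnit_iff_ne_zero).2 (by norm_num)

lemma D_unit : IsUnit (DserP 𝕜) := IsUnit.of_mul_eq_one _ D_mul_Di

lemma Di_unit : IsUnit (DiP 𝕜) := IsUnit.of_mul_eq_one _ (by rw [mul_comm]; exact D_mul_Di)

variable (𝕜) in
/-- the first coordinate on the conic -/
def xqP : (PowerSeries 𝕜) := (rserP 𝕜) * (DiP 𝕜)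

variable (𝕜) in
/-- the first local coordinate on the conic -/
def XqP : (PowerSeries 𝕜) := (xqP 𝕜) - 2

variable (𝕜) in
/-- the second local coordinate on the conic -/
def YqP : (PowerSeries 𝕜) := ((sgP 𝕜) - 6) * (xqP 𝕜) - (xqP 𝕜) ^ 3 + 5 * (xqP 𝕜) ^ 2

variable (𝕜) in
/-- the derivative of the second local coordinate -/
def dqP : (PowerSeries 𝕜) := ((sgP 𝕜) - 6) - 3 * (xqP 𝕜) ^ 2 + 10 * (xqP 𝕜)


lemma Xq_eq : (XqP 𝕜) = (sgP 𝕜) * (-(1 + 2 * (sgP 𝕜)) * (DiP 𝕜)) := by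
  have h := D_mul_Di (𝕜 := 𝕜)
  have h1 := r_eq (𝕜 := 𝕜)
  have h2 := D_eq (𝕜 := 𝕜)
  rw [XqP, xqP]
  calc (rserP 𝕜) * (DiP 𝕜) - 2 = ((rserP 𝕜) - 2 * (DserP 𝕜)) * (DiP 𝕜) + 2 * ((DserP 𝕜) * (DiP 𝕜) - 1) := by ring
    _ = ((rserP 𝕜) - 2 * (DserP 𝕜)) * (DiP 𝕜) := by rw [h]; ring
    _ = _ := by rw [h1, h2]; ring

lemma Yq_eq : (YqP 𝕜) = (sgP 𝕜) ^ 5 * ((rserP 𝕜) * (DiP 𝕜) ^ 3) := by
  have h := D_mul_Di (𝕜 := 𝕜)
  have h1 := r_eq (𝕜 := 𝕜)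
  have h2 := D_eq (𝕜 := 𝕜)
  have e : (YqP 𝕜) = ((((sgP 𝕜) - 6) * (DserP 𝕜) ^ 2 - (rserP 𝕜) ^ 2 + 5 * (rserP 𝕜) * (DserP 𝕜)) * ((rserP 𝕜) * (DiP 𝕜) ^ 3)) +
      (1 - (DserP 𝕜) * (DiP 𝕜)) * (((sgP 𝕜) - 6) * (rserP 𝕜) * (DiP 𝕜) * (1 + (DserP 𝕜) * (DiP 𝕜)) + 5 * (rserP 𝕜) ^ 2 * (DiP 𝕜) ^ 2) := by
    rw [YqP, xqP]
    ring
  rw [e, h]
  have e2 : ((sgP 𝕜) - 6) * (DserP 𝕜) ^ 2 - (rserP 𝕜) ^ 2 + 5 * (rserP 𝕜) * (DserP 𝕜) = (sgP 𝕜) ^ 5 := by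
    rw [h1, h2]
    ring
  rw [e2]
  ring

lemma dq_eq : (dqP 𝕜) * (DserP 𝕜) ^ 2 = (sgP 𝕜) ^ 5 + 25 * (sgP 𝕜) ^ 3 + 35 * (sgP 𝕜) ^ 2 + 15 * (sgP 𝕜) + 2 := by
  have h := D_mul_Di (𝕜 := 𝕜)
  have h1 := r_eq (𝕜 := 𝕜)
  have h2 := D_eq (𝕜 := 𝕜)
  have e : (dqP 𝕜) * (DserP 𝕜) ^ 2 = ((sgP 𝕜) - 6) * (DserP 𝕜) ^ 2 - 3 * (rserP 𝕜) ^ 2 * ((DserP 𝕜) * (DiP 𝕜)) ^ 2 + 10 * (rserP 𝕜) * (DserP 𝕜) * ((DserP 𝕜) * (DiP 𝕜)) := by
    rw [dqP, xqP]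
    ring
  rw [e, h, h1, h2]
  ring

variable (𝕜) in
/-- the first order neighbourhood of the conic -/
def PsiP : (MvPolynomial (Fin 2) 𝕜) →ₐ[𝕜] Polynomial (PowerSeries 𝕜) :=
  aeval ![Polynomial.X + Polynomial.C (xqP 𝕜),
    (Polynomial.C (sgP 𝕜) - 6) * (Polynomial.X + Polynomial.C (xqP 𝕜))]


def T0 (F : (MvPolynomial (Fin 2) 𝕜)) : (PowerSeries 𝕜) := ((PsiP 𝕜) F).coeff 0
def T1 (F : (MvPolynomial (Fin 2) 𝕜)) : (PowerSeries 𝕜) := ((PsiP 𝕜) F).coeff 1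

lemma aeval_C_sg (p : Polynomial 𝕜) :
    Polynomial.aeval (Polynomial.C (sgP 𝕜) : Polynomial (PowerSeries 𝕜)) p = Polynomial.C ((csP 𝕜) p) := by
  have : (Polynomial.aeval (Polynomial.C (sgP 𝕜) : Polynomial (PowerSeries 𝕜)) : Polynomial 𝕜 →ₐ[𝕜] Polynomial (PowerSeries 𝕜)) =
      ((Algebra.ofId (PowerSeries 𝕜) (Polynomial (PowerSeries 𝕜))).restrictScalars 𝕜).comp (csP 𝕜) := by
    apply Polynomial.algHom_ext
    rw [Polynomial.aeval_X, AlgHom.comp_apply, cs_X]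
    rfl
  rw [this]
  rfl

lemma Psi_eq (F : (MvPolynomial (Fin 2) 𝕜)) : (PsiP 𝕜) F = ∑ m ∈ Finset.Icc (ord F) F.totalDegree,
    Polynomial.C ((csP 𝕜) (Hc F m)) * (Polynomial.X + Polynomial.C (xqP 𝕜)) ^ m := by
  rw [PsiP, aeval_line]
  simp only [aeval_C_sg]

lemma T0_eq (F : (MvPolynomial (Fin 2) 𝕜)) : T0 F = ∑ m ∈ Finset.Icc (ord F) F.totalDegree,
    (csP 𝕜) (Hc F m) * (xqP 𝕜) ^ m := by
  rw [T0, Psi_eq, Polynomial.finsetSum_coeff]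
  refine Finset.sum_congr rfl fun m _ => ?_
  rw [Polynomial.coeff_C_mul, Polynomial.coeff_X_add_C_pow, Nat.choose_zero_right, Nat.sub_zero,
    Nat.cast_one, mul_one]

lemma T1_eq (F : (MvPolynomial (Fin 2) 𝕜)) : (xqP 𝕜) * T1 F = ∑ m ∈ Finset.Icc (ord F) F.totalDegree,
    m * ((csP 𝕜) (Hc F m) * (xqP 𝕜) ^ m) := by
  rw [T1, Psi_eq, Polynomial.finsetSum_coeff, Finset.mul_sum]
  refine Finset.sum_congr rfl fun m _ => ?_
  rw [Polynomial.coeff_C_mul, Polynomial.coeff_X_add_C_pow, Nat.choose_one_right]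
  rcases m with _ | m
  · simp
  · rw [Nat.add_sub_cancel, pow_succ]
    ring

/-- the second polynomial on the conic -/
def G1 (F : (MvPolynomial (Fin 2) 𝕜)) : Polynomial 𝕜 :=
  ∑ m ∈ Finset.Icc (ord F) F.totalDegree,
    (m : Polynomial 𝕜) * (Hc F m * (rhoP 𝕜) ^ (m - ord F) * (DelP 𝕜) ^ (F.totalDegree - m))

lemma term_eq {F : (MvPolynomial (Fin 2) 𝕜)} {m : ℕ} (hm : m ∈ Finset.Icc (ord F) F.totalDegree) :
    (DserP 𝕜) ^ F.totalDegree * ((csP 𝕜) (Hc F m) * (xqP 𝕜) ^ m) =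
      (rserP 𝕜) ^ ord F * (csP 𝕜) (Hc F m * (rhoP 𝕜) ^ (m - ord F) * (DelP 𝕜) ^ (F.totalDegree - m)) := by
  rw [Finset.mem_Icc] at hm
  rw [map_mul, map_mul, map_pow, map_pow, ← rserP, ← DserP, xqP, mul_pow]
  obtain ⟨a, ha⟩ : ∃ a, m = ord F + a := ⟨m - ord F, by omega⟩
  obtain ⟨b, hb⟩ : ∃ b, F.totalDegree = m + b := ⟨F.totalDegree - m, by omega⟩
  rw [show m - ord F = a by omega, show F.totalDegree - m = b by omega, hb, pow_add]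
  have h1 : (DserP 𝕜) ^ m * (DiP 𝕜) ^ m = 1 := by rw [← mul_pow, D_mul_Di, one_pow]
  have h2 : (rserP 𝕜) ^ m = (rserP 𝕜) ^ ord F * (rserP 𝕜) ^ a := by rw [← pow_add, ← ha]
  calc (DserP 𝕜) ^ m * (DserP 𝕜) ^ b * ((csP 𝕜) (Hc F m) * ((rserP 𝕜) ^ m * (DiP 𝕜) ^ m))
      = ((DserP 𝕜) ^ m * (DiP 𝕜) ^ m) * ((DserP 𝕜) ^ b * (csP 𝕜) (Hc F m) * (rserP 𝕜) ^ m) := by ring
    _ = _ := by rw [h1, h2]; ring

lemma T0_G0 (F : (MvPolynomial (Fin 2) 𝕜)) : (DserP 𝕜) ^ F.totalDegree * T0 F = (rserP 𝕜) ^ ord F * (csP 𝕜) (G0 F) := by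
  rw [T0_eq, G0, map_sum, Finset.mul_sum, Finset.mul_sum]
  exact Finset.sum_congr rfl fun m hm => term_eq hm

lemma T1_G1 (F : (MvPolynomial (Fin 2) 𝕜)) : (DserP 𝕜) ^ F.totalDegree * ((xqP 𝕜) * T1 F) = (rserP 𝕜) ^ ord F * (csP 𝕜) (G1 F) := by
  rw [T1_eq, G1, map_sum, Finset.mul_sum, Finset.mul_sum]
  refine Finset.sum_congr rfl fun m hm => ?_
  rw [map_mul, map_natCast, mul_left_comm, term_eq hm]
  ring

lemma G1_natDegree (F : (MvPolynomial (Fin 2) 𝕜)) : (G1 F).natDegree ≤ 2 * F.totalDegree - ord F := by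
  apply Polynomial.natDegree_sum_le_of_forall_le
  intro m hm
  have h1 := G0_term_natDegree F hm
  rw [← Polynomial.C_eq_natCast]
  exact (Polynomial.natDegree_C_mul_le _ _).trans h1

lemma G1_rho (F : (MvPolynomial (Fin 2) 𝕜)) {s : 𝕜} (hs : ((rhoP 𝕜)).eval s = 0) : (G1 F).eval s = ord F * (G0 F).eval s := by
  rw [G1, G0, Polynomial.eval_finsetSum, Polynomial.eval_finsetSum, Finset.mul_sum]
  refine Finset.sum_congr rfl fun m hm => ?_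
  rw [Finset.mem_Icc] at hm
  rw [Polynomial.eval_mul, Polynomial.eval_natCast]
  by_cases h : m = ord F
  · rw [h]
  · rw [Polynomial.eval_mul, Polynomial.eval_mul, Polynomial.eval_pow, hs,
      zero_pow (by omega)]
    ring

lemma G1_Del (F : (MvPolynomial (Fin 2) 𝕜)) {s : 𝕜} (hs : ((DelP 𝕜)).eval s = 0) :
    (G1 F).eval s = F.totalDegree * (G0 F).eval s := by
  rw [G1, G0, Polynomial.eval_finsetSum, Polynomial.eval_finsetSum, Finset.mul_sum]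
  refine Finset.sum_congr rfl fun m hm => ?_
  rw [Finset.mem_Icc] at hm
  rw [Polynomial.eval_mul, Polynomial.eval_natCast]
  by_cases h : m = F.totalDegree
  · rw [h]
  · rw [Polynomial.eval_mul, Polynomial.eval_mul, Polynomial.eval_pow, Polynomial.eval_pow, hs,
      zero_pow (n := F.totalDegree - m) (by omega)]
    ring

end

end Pool.Agent.H68.RJ.Ram
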