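import Mathlib
import Pool.Agent.H68.RJ.RK

set_option autoImplicit false

namespace Pool.Agent.H68.RJ.Ram

open MvPolynomial
open Pool.Agent.H68.RJ.Ramanujam (cubic conic)

noncomputable section

universe u v

variable {𝕜 : Type u} [Field 𝕜] [IsAlgClosed 𝕜] [CharZero 𝕜]


variable {K : Type v} [Field K] [Algebra 𝕜 K] {θ : MvPolynomial (Fin 2) 𝕜 →ₐ[𝕜] K} {h : MvPolynomial (Fin 2) 𝕜}

lemma coeff_mul_unit (n : ℕ) (u : (PowerSeries 𝕜)) : PowerSeries.coeff n ((sgP 𝕜) ^ n * u) =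
    PowerSeries.constantCoeff u := by
  have := PowerSeries.coeff_X_pow_mul u n 0
  rw [zero_add] at this
  rw [this, PowerSeries.coeff_zero_eq_constantCoeff]

/-- the multiplicity of the curve in the point `p` -/
lemma mult_eq (H : Hyp θ h) (hx : θ (X 0) ≠ 0) (hy : θ (X 1) ≠ 0) :
    ∃ j : ℕ, 1 ≤ j ∧ ord h = 5 * j ∧ ∀ n ∈ ((tauP 𝕜) h).support, 75 * j ≤ 3 * n 0 + 25 * n 1 := by
  obtain ⟨hk, hd, -, ⟨c, hc, hG⟩⟩ := class_eq H hx hy
  obtain ⟨m, hm1, hmS, hnp⟩ := np H hx hy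
  set k := ord h with hkdef
  -- the restriction to the conic
  have hT : (DserP 𝕜) ^ h.totalDegree * ((PsiP' 𝕜) ((tauP 𝕜) h)).coeff 0 =
      (sgP 𝕜) ^ (3 * k) * ((rserP 𝕜) ^ k * algebraMap 𝕜 (PowerSeries 𝕜) c) := by
    rw [Psi'_tau]
    have := T0_G0 h
    rw [hG, map_mul, map_pow, cs_X] at this
    have e3 : (csP 𝕜) (Polynomial.C c) = algebraMap 𝕜 (PowerSeries 𝕜) c := by
      rw [csP, Polynomial.aeval_C]
    rw [e3] at this
    rw [← T0, this]
    ring
  have hu : PowerSeries.constantCoeff ((rserP 𝕜) ^ k * algebraMap 𝕜 (PowerSeries 𝕜) c) ≠ 0 := by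
    rw [map_mul, map_pow, r_const]
    have : PowerSeries.constantCoeff (algebraMap 𝕜 (PowerSeries 𝕜) c) = c := by
      rw [PowerSeries.algebraMap_apply]
      simp
    rw [this]
    exact mul_ne_zero (pow_ne_zero _ (by norm_num)) hc
  have hco : PowerSeries.coeff (3 * k) ((DserP 𝕜) ^ h.totalDegree * ((PsiP' 𝕜) ((tauP 𝕜) h)).coeff 0) ≠ 0 := by
    rw [hT, coeff_mul_unit]
    exact hu
  have hmk : 5 * m = 3 * k := by
    by_cases hlt : m < k
    · -- the leading term
      set F' := (tauP 𝕜) h - monomial (Finsupp.single 1 m) (coeff (Finsupp.single 1 m) ((tauP 𝕜) h)) with hF'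
      have hsupp : ∀ n ∈ F'.support, 5 * m + 1 ≤ n 0 + 5 * n 1 := by
        intro n hn
        rw [mem_support_iff, hF', coeff_sub, coeff_monomial] at hn
        have hne : n ≠ Finsupp.single 1 m := by
          rintro rfl
          rw [if_pos rfl, sub_self] at hn
          exact hn rfl
        rw [if_neg (Ne.symm hne), sub_zero] at hn
        have h1 := hnp n (mem_support_iff.2 hn)
        by_cases h2 : n 1 < m
        · obtain ⟨v, hv⟩ : ∃ v, m = n 1 + v := ⟨m - n 1, by omega⟩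
          obtain ⟨w, hw⟩ : ∃ w, k = m + 1 + w := ⟨k - m - 1, by omega⟩
          by_contra h3
          have h4 : n 0 ≤ 5 * v := by omega
          have h5 : m * n 0 ≤ m * (5 * v) := Nat.mul_le_mul_left _ h4
          have h6 : 5 * k * m = 5 * k * n 1 + 5 * k * v := by
            conv_lhs => rw [hv]
            ring
          have h7 : 5 * k * v = 5 * m * v + 5 * (1 + w) * v := by
            rw [hw]
            ring
          have h8 : 0 < 5 * (1 + w) * v := by
            have : 0 < v := by omega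
            positivity
          have h9 : m * (5 * v) = 5 * m * v := by ring
          omega
        · by_cases h3 : n 1 = m
          · have : n 0 ≠ 0 := by
              intro h0
              apply hne
              ext i
              fin_cases i
              · simpa using h0
              · simpa using h3
            omega
          · omega
      have h1 := key0 (5 * m + 1) F' hsupp
      have h2 : ((PsiP' 𝕜) ((tauP 𝕜) h)).coeff 0 = ((PsiP' 𝕜) F').coeff 0 +
          algebraMap 𝕜 (PowerSeries 𝕜) (coeff (Finsupp.single 1 m) ((tauP 𝕜) h)) * (YqP 𝕜) ^ m := by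
        have h3 := mon0 (Finsupp.single 1 m) (coeff (Finsupp.single 1 m) ((tauP 𝕜) h))
        rw [show (Finsupp.single (1 : Fin 2) m) 0 = 0 by simp,
          show (Finsupp.single (1 : Fin 2) m) 1 = m by simp, pow_zero, one_mul] at h3
        rw [← h3, ← Polynomial.coeff_add, ← map_add, hF', sub_add_cancel]
      have hcm : coeff (Finsupp.single 1 m) ((tauP 𝕜) h) ≠ 0 := mem_support_iff.1 hmS
      obtain ⟨g, hg⟩ := h1
      have h3 : (DserP 𝕜) ^ h.totalDegree * ((PsiP' 𝕜) ((tauP 𝕜) h)).coeff 0 = (sgP 𝕜) ^ (5 * m) *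
          ((DserP 𝕜) ^ h.totalDegree * ((sgP 𝕜) * g + algebraMap 𝕜 (PowerSeries 𝕜) (coeff (Finsupp.single 1 m) ((tauP 𝕜) h)) *
            ((rserP 𝕜) * (DiP 𝕜) ^ 3) ^ m)) := by
        rw [h2, hg, Yq_eq, mul_pow, ← pow_mul, pow_succ]
        ring
      have h4 : PowerSeries.constantCoeff ((DserP 𝕜) ^ h.totalDegree * ((sgP 𝕜) * g +
          algebraMap 𝕜 (PowerSeries 𝕜) (coeff (Finsupp.single 1 m) ((tauP 𝕜) h)) * ((rserP 𝕜) * (DiP 𝕜) ^ 3) ^ m)) ≠ 0 := by
        have h5 : PowerSeries.constantCoeff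
            (algebraMap 𝕜 (PowerSeries 𝕜) (coeff (Finsupp.single 1 m) ((tauP 𝕜) h))) =
            coeff (Finsupp.single 1 m) ((tauP 𝕜) h) := by
          rw [PowerSeries.algebraMap_apply]
          simp
        rw [map_mul, map_pow, D_const, map_add, map_mul, PowerSeries.constantCoeff_X, map_mul, h5,
          map_pow, map_mul, map_pow, r_const, Di_const]
        simp only [one_pow, one_mul, zero_mul, zero_add, mul_one]
        exact mul_ne_zero hcm (pow_ne_zero _ (by norm_num))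
      rcases lt_trichotomy (5 * m) (3 * k) with h6 | h6 | h6
      · exfalso
        apply h4
        have h7 := coeff_mul_unit (5 * m) ((DserP 𝕜) ^ h.totalDegree * ((sgP 𝕜) * g +
          algebraMap 𝕜 (PowerSeries 𝕜) (coeff (Finsupp.single 1 m) ((tauP 𝕜) h)) * ((rserP 𝕜) * (DiP 𝕜) ^ 3) ^ m))
        rw [← h3, hT, PowerSeries.coeff_X_pow_mul', if_neg (by omega)] at h7
        exact h7.symm
      · exact h6
      · exfalso
        apply hco
        rw [h3, PowerSeries.coeff_X_pow_mul', if_neg (by omega)]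
    · exfalso
      have hsupp : ∀ n ∈ ((tauP 𝕜) h).support, 5 * k ≤ n 0 + 5 * n 1 := by
        intro n hn
        have h1 := hnp n hn
        by_cases h2 : n 1 < k
        · obtain ⟨v, hv⟩ : ∃ v, k = n 1 + v := ⟨k - n 1, by omega⟩
          obtain ⟨w, hw⟩ : ∃ w, m = k + w := ⟨m - k, by omega⟩
          have h3 : m * (5 * v) ≤ m * n 0 := by
            have e1 : 5 * k * m = 5 * n 1 * m + m * (5 * v) := by
              conv_lhs => rw [hv]
              ring
            have e2 : 5 * n 1 * m = 5 * k * n 1 + 5 * n 1 * w := by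
              rw [hw]
              ring
            omega
          have h4 := Nat.le_of_mul_le_mul_left h3 (by omega)
          omega
        · omega
      obtain ⟨g, hg⟩ := key0 (5 * k) _ hsupp
      apply hco
      rw [hg, mul_left_comm, PowerSeries.coeff_X_pow_mul', if_neg (by omega)]
  obtain ⟨j, hj⟩ : ∃ j, k = 5 * j := ⟨k / 5, by omega⟩
  have hmj : m = 3 * j := by omega
  refine ⟨j, by omega, hj, ?_⟩
  intro n hn
  have h1 := hnp n hn
  have h2 : j * (75 * j) ≤ j * (3 * n 0 + 25 * n 1) := by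
    calc j * (75 * j) = 5 * k * m := by rw [hj, hmj]; ring
      _ ≤ m * n 0 + 5 * k * n 1 := h1
      _ = j * (3 * n 0 + 25 * n 1) := by rw [hj, hmj]; ring
  exact Nat.le_of_mul_le_mul_left h2 (by omega)

lemma general_case (H : Hyp θ h) (hx : θ (X 0) ≠ 0) (hy : θ (X 1) ≠ 0) : False := by
  obtain ⟨hk, hd, -, ⟨c, hc, hG⟩⟩ := class_eq H hx hy
  obtain ⟨j, hj1, hj, hS⟩ := mult_eq H hx hy
  have e3 : (csP 𝕜) (Polynomial.C c) = algebraMap 𝕜 (PowerSeries 𝕜) c := by
    rw [csP, Polynomial.aeval_C]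
  have hd' : h.totalDegree = 10 * j := by omega
  have h1 := key1 (3 * j) (15 * j + 4) ((tauP 𝕜) h)
    (by
      intro n hn
      have := hS n hn
      omega)
    (by
      intro n hn
      have := hS n hn
      omega)
  rw [Psi'_tau, ← T0, ← T1] at h1
  have hG0 := T0_G0 h
  have hG1 := T1_G1 h
  refine final_comp hc hj1 (G := G1 h) ?_ ?_ ?_ ?_
  · refine (G1_natDegree h).trans ?_
    omega
  · have h2 : (sgP 𝕜) ^ (15 * j + 4) ∣ ((rserP 𝕜) ^ (ord h + 1) * (DiP 𝕜)) *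
        ((sgP 𝕜) ^ 5 * (DiP 𝕜) ^ 2 * (csP 𝕜) (G1 h) - 3 * (j : (PowerSeries 𝕜)) * (dqP 𝕜) * (csP 𝕜) (G0 h)) := by
      have e : ((rserP 𝕜) ^ (ord h + 1) * (DiP 𝕜)) *
          ((sgP 𝕜) ^ 5 * (DiP 𝕜) ^ 2 * (csP 𝕜) (G1 h) - 3 * (j : (PowerSeries 𝕜)) * (dqP 𝕜) * (csP 𝕜) (G0 h)) =
          ((xqP 𝕜) * (DserP 𝕜) ^ h.totalDegree) * ((YqP 𝕜) * T1 h - ((3 * j : ℕ) : (PowerSeries 𝕜)) * (dqP 𝕜) * T0 h) := by
        calc ((rserP 𝕜) ^ (ord h + 1) * (DiP 𝕜)) *
            ((sgP 𝕜) ^ 5 * (DiP 𝕜) ^ 2 * (csP 𝕜) (G1 h) - 3 * (j : (PowerSeries 𝕜)) * (dqP 𝕜) * (csP 𝕜) (G0 h))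
            = ((sgP 𝕜) ^ 5 * ((rserP 𝕜) * (DiP 𝕜) ^ 3)) * ((rserP 𝕜) ^ ord h * (csP 𝕜) (G1 h)) -
                3 * (j : (PowerSeries 𝕜)) * (dqP 𝕜) * ((rserP 𝕜) * (DiP 𝕜)) * ((rserP 𝕜) ^ ord h * (csP 𝕜) (G0 h)) := by ring
          _ = (YqP 𝕜) * ((DserP 𝕜) ^ h.totalDegree * ((xqP 𝕜) * T1 h)) -
                3 * (j : (PowerSeries 𝕜)) * (dqP 𝕜) * (xqP 𝕜) * ((DserP 𝕜) ^ h.totalDegree * T0 h) := by
              rw [← hG0, ← hG1, ← Yq_eq, ← xqP]
          _ = _ := by
              push_cast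
              ring
      rw [e]
      exact Dvd.dvd.mul_left h1 _
    have h3 : (sgP 𝕜) ^ (15 * j + 4) ∣
        ((sgP 𝕜) ^ 5 * (DiP 𝕜) ^ 2 * (csP 𝕜) (G1 h) - 3 * (j : (PowerSeries 𝕜)) * (dqP 𝕜) * (csP 𝕜) (G0 h)) :=
      ((r_unit.pow _).mul Di_unit).dvd_mul_left.1 h2
    have h4 : (sgP 𝕜) ^ 5 * (csP 𝕜) (G1 h) - 3 * (j : (PowerSeries 𝕜)) * ((dqP 𝕜) * (DserP 𝕜) ^ 2) *
        (algebraMap 𝕜 (PowerSeries 𝕜) c * (sgP 𝕜) ^ (15 * j)) =
        (DserP 𝕜) ^ 2 * ((sgP 𝕜) ^ 5 * (DiP 𝕜) ^ 2 * (csP 𝕜) (G1 h) - 3 * (j : (PowerSeries 𝕜)) * (dqP 𝕜) * (csP 𝕜) (G0 h)) := by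
      have h5 : (csP 𝕜) (G0 h) = algebraMap 𝕜 (PowerSeries 𝕜) c * (sgP 𝕜) ^ (15 * j) := by
        rw [hG, map_mul, map_pow, cs_X, e3, hj]
        congr 2
        ring
      rw [h5]
      calc _ = ((DserP 𝕜) * (DiP 𝕜)) ^ 2 * ((sgP 𝕜) ^ 5 * (csP 𝕜) (G1 h)) - 3 * (j : (PowerSeries 𝕜)) * ((dqP 𝕜) * (DserP 𝕜) ^ 2) *
            (algebraMap 𝕜 (PowerSeries 𝕜) c * (sgP 𝕜) ^ (15 * j)) := by rw [D_mul_Di]; ring
        _ = _ := by ring
    rw [h4]
    exact Dvd.dvd.mul_left h3 _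
  · intro s hs
    rw [G1_rho h hs, hG, hj, Polynomial.eval_mul, Polynomial.eval_pow, Polynomial.eval_X,
      Polynomial.eval_C]
    push_cast
    rw [show 3 * (5 * j) = 15 * j by ring]
  · intro s hs
    rw [G1_Del h hs, hG, hd', hj, Polynomial.eval_mul, Polynomial.eval_pow, Polynomial.eval_X,
      Polynomial.eval_C]
    push_cast
    rw [show 3 * (5 * j) = 15 * j by ring]

lemma assoc_aux (H : Hyp θ h) {i : Fin 2} (hi : θ (X i) = 0) : ∃ g : (MvPolynomial (Fin 2) 𝕜), IsUnit g ∧ h = X i * g := by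
  obtain ⟨g, hg⟩ := H.ker _ hi
  have hXi : Irreducible (X i : (MvPolynomial (Fin 2) 𝕜)) := (MvPolynomial.X_prime (i := i)).irreducible
  rcases hXi.isUnit_or_isUnit hg with h1 | h1
  · exact absurd h1 H.irr.not_isUnit
  · obtain ⟨u, rfl⟩ := h1
    refine ⟨↑u⁻¹, Units.isUnit _, ?_⟩
    rw [hg, mul_assoc, Units.mul_inv, mul_one]

/-- the main lemma -/
theorem no_hyp (H : Hyp θ h) : False := by
  by_cases hx : θ (X 0) = 0
  · have hy : θ (X 1) ≠ 0 := by
      intro h0
      apply H.con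
      rw [theta_conic, hx, h0]
      ring
    obtain ⟨g, hg, hh⟩ := assoc_aux H hx
    have h1 : eval ![0, 5] h = 0 := by
      rw [hh, map_mul, eval_X]
      simp
    obtain ⟨V, hV, h2⟩ := place_affine H.ker h1
    have h3 : ((rayP 𝕜) ![0, 1] h).coeff h.totalDegree = 0 := by
      rw [hh, map_mul]
      have : (rayP 𝕜) ![0, 1] (X 0) = 0 := by simp [rayP]
      rw [this, zero_mul, Polynomial.coeff_zero]
    obtain ⟨V', hV', h4, h5⟩ := cusp_place H hy h3
    have e := H.uniq V V' hV hV'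
      (inf_affine H hV (h2 0) (h2 1) (Or.inr (by norm_num)) (by
        rw [map_mul]
        simp only [Matrix.cons_val_zero, Matrix.cons_val_one, Matrix.cons_val_fin_one]
        rw [eval_conic]
        norm_num))
      (inf_cusp H hV' hy h4 h5)
    subst e
    exact (h2 1).not_inv hV hy h5
  · by_cases hy : θ (X 1) = 0
    · obtain ⟨g, hg, hh⟩ := assoc_aux H hy
      have h1 : ∀ a : 𝕜, eval ![a, 0] h = 0 := by
        intro a
        rw [hh, map_mul, eval_X]
        simp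
      obtain ⟨V, hV, h2⟩ := place_affine H.ker (h1 5)
      obtain ⟨V', hV', h3⟩ := place_affine H.ker (h1 (32 / 55))
      have e := H.uniq V V' hV hV'
        (inf_affine H hV (h2 0) (h2 1) (Or.inl (by norm_num)) (by
          rw [map_mul]
          simp only [Matrix.cons_val_zero, Matrix.cons_val_one, Matrix.cons_val_fin_one]
          rw [eval_cubic]
          norm_num))
        (inf_affine H hV' (h3 0) (h3 1) (Or.inl (by norm_num)) (by
          rw [map_mul]
          simp only [Matrix.cons_val_zero, Matrix.cons_val_one, Matrix.cons_val_fin_one]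
          rw [eval_conic]
          norm_num))
      subst e
      have h4 := (h2 0).unique hV (h3 0)
      simp only [Matrix.cons_val_zero] at h4
      norm_num at h4
    · exact general_case H hx hy

end

end Pool.Agent.H68.RJ.Ram
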