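import Mathlib
import Pool.Agent.H68.RJ.RM

set_option autoImplicit false

namespace Pool.Agent.H68.RJ.Ram

open MvPolynomial
open Pool.Agent.H68.RJ.Ramanujam (cubic conic coordinateRing)

noncomputable section

universe u v

variable {𝕜 : Type u} [Field 𝕜] [IsAlgClosed 𝕜] [CharZero 𝕜]


variable {K : Type v} [Field K] [Algebra 𝕜 K]


variable (𝕜) in
abbrev toFP : (MvPolynomial (Fin 2) 𝕜) →+* (FractionRing (MvPolynomial (Fin 2) 𝕜)) := algebraMap (MvPolynomial (Fin 2) 𝕜) (FractionRing (MvPolynomial (Fin 2) 𝕜))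


variable (𝕜) in
/-- the generators of the coordinate ring -/
def genP (i j : ℕ) : (coordinateRing 𝕜) :=
  if h : 2 ≤ i + j ∧ i + j ≤ 5 then
    ⟨algebraMap _ _ (X 0 ^ i * X 1 ^ j : MvPolynomial (Fin 2) 𝕜) / algebraMap _ _ (cubic * conic),
      Algebra.subset_adjoin ⟨i, j, h.1, h.2, rfl⟩⟩
  else 0


lemma gen_val {i j : ℕ} (h : 2 ≤ i + j ∧ i + j ≤ 5) :
    ((genP 𝕜) i j : (FractionRing (MvPolynomial (Fin 2) 𝕜))) = (toFP 𝕜) (X 0 ^ i * X 1 ^ j) / (toFP 𝕜) (cubic * conic) := by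
  rw [genP, dif_pos h]

lemma toF_inj {F G : (MvPolynomial (Fin 2) 𝕜)} (h : (toFP 𝕜) F = (toFP 𝕜) G) : F = G := IsFractionRing.injective (MvPolynomial (Fin 2) 𝕜) (FractionRing (MvPolynomial (Fin 2) 𝕜)) h

lemma cubic_ne : (cubic : (MvPolynomial (Fin 2) 𝕜)) ≠ 0 := by
  intro h
  have := congrArg (eval ![0, 1]) h
  rw [eval_cubic, map_zero] at this
  norm_num at this

lemma conic_ne : (conic : (MvPolynomial (Fin 2) 𝕜)) ≠ 0 := by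
  intro h
  have := congrArg (eval ![0, 1]) h
  rw [eval_conic, map_zero] at this
  norm_num at this

lemma cq_ne : (toFP 𝕜) (cubic * conic) ≠ 0 := by
  intro h
  have h1 : (cubic * conic : (MvPolynomial (Fin 2) 𝕜)) = 0 := toF_inj (by rw [h, map_zero])
  exact mul_ne_zero cubic_ne conic_ne h1

lemma gen_mul {a b c d a' b' c' d' : ℕ} (h1 : 2 ≤ a + b ∧ a + b ≤ 5) (h2 : 2 ≤ c + d ∧ c + d ≤ 5)
    (h3 : 2 ≤ a' + b' ∧ a' + b' ≤ 5) (h4 : 2 ≤ c' + d' ∧ c' + d' ≤ 5) (e1 : a + c = a' + c')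
    (e2 : b + d = b' + d') : (genP 𝕜) a b * (genP 𝕜) c d = (genP 𝕜) a' b' * (genP 𝕜) c' d' := by
  apply Subtype.ext
  rw [MulMemClass.coe_mul, MulMemClass.coe_mul, gen_val h1, gen_val h2, gen_val h3, gen_val h4,
    div_mul_div_comm, div_mul_div_comm, ← map_mul (toFP 𝕜) (X 0 ^ a * X 1 ^ b),
    ← map_mul (toFP 𝕜) (X 0 ^ a' * X 1 ^ b')]
  congr 2
  have e3 : (X 0 : (MvPolynomial (Fin 2) 𝕜)) ^ a * X 1 ^ b * (X 0 ^ c * X 1 ^ d) = X 0 ^ (a + c) * X 1 ^ (b + d) := by ring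
  have e4 : (X 0 : (MvPolynomial (Fin 2) 𝕜)) ^ a' * X 1 ^ b' * (X 0 ^ c' * X 1 ^ d') = X 0 ^ (a' + c') * X 1 ^ (b' + d') := by
    ring
  rw [e3, e4, e1, e2]

lemma gen_sum : -(5 * (genP 𝕜) 0 2) - 32 * (genP 𝕜) 1 1 + (genP 𝕜) 0 3 + 15 * (genP 𝕜) 1 2 + 30 * (genP 𝕜) 2 1 -
    160 * (genP 𝕜) 3 0 + 5 * (genP 𝕜) 2 2 + 80 * (genP 𝕜) 3 1 + 307 * (genP 𝕜) 4 0 - (genP 𝕜) 3 2 - 15 * (genP 𝕜) 4 1 -
    55 * (genP 𝕜) 5 0 = 1 := by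
  have hinj : Function.Injective (coordinateRing 𝕜).val := Subtype.val_injective
  apply hinj
  simp only [map_add, map_sub, map_mul, map_neg, map_ofNat, map_one]
  have key2 : (cubic * conic : (MvPolynomial (Fin 2) 𝕜)) = -(5 * (X 0 ^ 0 * X 1 ^ 2)) - 32 * (X 0 ^ 1 * X 1 ^ 1) +
      X 0 ^ 0 * X 1 ^ 3 + 15 * (X 0 ^ 1 * X 1 ^ 2) + 30 * (X 0 ^ 2 * X 1 ^ 1) -
      160 * (X 0 ^ 3 * X 1 ^ 0) + 5 * (X 0 ^ 2 * X 1 ^ 2) + 80 * (X 0 ^ 3 * X 1 ^ 1) +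
      307 * (X 0 ^ 4 * X 1 ^ 0) - X 0 ^ 3 * X 1 ^ 2 - 15 * (X 0 ^ 4 * X 1 ^ 1) -
      55 * (X 0 ^ 5 * X 1 ^ 0) := by
    rw [cubic, conic]
    ring
  have key3 : (toFP 𝕜) (cubic * conic) = -(5 * (toFP 𝕜) (X 0 ^ 0 * X 1 ^ 2)) - 32 * (toFP 𝕜) (X 0 ^ 1 * X 1 ^ 1) +
      (toFP 𝕜) (X 0 ^ 0 * X 1 ^ 3) + 15 * (toFP 𝕜) (X 0 ^ 1 * X 1 ^ 2) + 30 * (toFP 𝕜) (X 0 ^ 2 * X 1 ^ 1) -
      160 * (toFP 𝕜) (X 0 ^ 3 * X 1 ^ 0) + 5 * (toFP 𝕜) (X 0 ^ 2 * X 1 ^ 2) + 80 * (toFP 𝕜) (X 0 ^ 3 * X 1 ^ 1) +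
      307 * (toFP 𝕜) (X 0 ^ 4 * X 1 ^ 0) - (toFP 𝕜) (X 0 ^ 3 * X 1 ^ 2) - 15 * (toFP 𝕜) (X 0 ^ 4 * X 1 ^ 1) -
      55 * (toFP 𝕜) (X 0 ^ 5 * X 1 ^ 0) := by
    rw [key2]
    simp only [map_add, map_sub, map_mul, map_neg, map_ofNat, map_pow]
  have h0 := cq_ne (𝕜 := 𝕜)
  have hv : ∀ i j, (coordinateRing 𝕜).val ((genP 𝕜) i j) = ((genP 𝕜) i j : (FractionRing (MvPolynomial (Fin 2) 𝕜))) := fun i j => rfl
  simp only [hv]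
  rw [gen_val (by norm_num), gen_val (by norm_num), gen_val (by norm_num), gen_val (by norm_num),
    gen_val (by norm_num), gen_val (by norm_num), gen_val (by norm_num), gen_val (by norm_num),
    gen_val (by norm_num), gen_val (by norm_num), gen_val (by norm_num), gen_val (by norm_num)]
  field_simp
  rw [key3]

end

end Pool.Agent.H68.RJ.Ram
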