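import Mathlib
import Pool.Agent.H68.RJ.RN

set_option autoImplicit false

namespace Pool.Agent.H68.RJ.Ram

open MvPolynomial
open Pool.Agent.H68.RJ.Ramanujam (cubic conic coordinateRing)

noncomputable section

universe u v

variable {𝕜 : Type u} [Field 𝕜] [IsAlgClosed 𝕜] [CharZero 𝕜]


variable {K : Type v} [Field K] [Algebra 𝕜 K]

/-- the constants -/
abbrev Fc (𝕜 : Type u) [Field 𝕜] (K : Type v) [Field K] [Algebra 𝕜 K] : Subfield K := (algebraMap 𝕜 K).fieldRange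

lemma mem_Fc {b : K} : b ∈ Fc 𝕜 K ↔ ∃ z, b = algebraMap 𝕜 K z := by
  rw [RingHom.mem_fieldRange]
  exact ⟨fun ⟨z, hz⟩ => ⟨z, hz.symm⟩, fun ⟨z, hz⟩ => ⟨z, hz.symm⟩⟩

lemma quad_const {b p q : K} (hp : p ∈ Fc 𝕜 K) (hq : q ∈ Fc 𝕜 K) (h : b ^ 2 + p * b + q = 0) :
    b ∈ Fc 𝕜 K := by
  obtain ⟨p, rfl⟩ := mem_Fc.1 hp
  obtain ⟨q, rfl⟩ := mem_Fc.1 hq
  obtain ⟨w, hw⟩ := IsAlgClosed.exists_pow_nat_eq (p ^ 2 / 4 - q) (n := 2) (by norm_num)
  have hw' : algebraMap 𝕜 K w ^ 2 = algebraMap 𝕜 K p ^ 2 / 4 - algebraMap 𝕜 K q := by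
    rw [← map_pow, hw, map_sub, map_div₀, map_pow, map_ofNat]
  have h4 : (4 : K) ≠ 0 := by
    have : (4 : K) = algebraMap 𝕜 K 4 := by rw [map_ofNat]
    rw [this]
    exact (map_ne_zero _).2 (by norm_num)
  have h2 : (2 : K) ≠ 0 := by
    have : (2 : K) = algebraMap 𝕜 K 2 := by rw [map_ofNat]
    rw [this]
    exact (map_ne_zero _).2 (by norm_num)
  have h1 : (b + algebraMap 𝕜 K p / 2 - algebraMap 𝕜 K w) *
      (b + algebraMap 𝕜 K p / 2 + algebraMap 𝕜 K w) = 0 := by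
    have : (b + algebraMap 𝕜 K p / 2 - algebraMap 𝕜 K w) *
      (b + algebraMap 𝕜 K p / 2 + algebraMap 𝕜 K w) = (b + algebraMap 𝕜 K p / 2) ^ 2 -
        algebraMap 𝕜 K w ^ 2 := by ring
    rw [this, hw']
    have e4 : (4 : K) = 2 * 2 := by norm_num
    rw [e4]
    field_simp
    linear_combination 4 * h
  have hp2 : algebraMap 𝕜 K p / 2 ∈ Fc 𝕜 K := div_mem hp (ofNat_mem _ 2)
  have hw2 : algebraMap 𝕜 K w ∈ Fc 𝕜 K := mem_Fc.2 ⟨w, rfl⟩
  rcases mul_eq_zero.1 h1 with h3 | h3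
  · have : b = algebraMap 𝕜 K w - algebraMap 𝕜 K p / 2 := by linear_combination h3
    rw [this]
    exact sub_mem hw2 hp2
  · have : b = -algebraMap 𝕜 K w - algebraMap 𝕜 K p / 2 := by linear_combination h3
    rw [this]
    exact sub_mem (neg_mem hw2) hp2

variable (ψ : (coordinateRing 𝕜) →ₐ[𝕜] K)

/-- if all generators are constant, then so is everything -/
lemma all_const (h : ∀ i j, 2 ≤ i + j → i + j ≤ 5 → ψ ((genP 𝕜) i j) ∈ Fc 𝕜 K) (a : (coordinateRing 𝕜)) :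
    ψ a ∈ Fc 𝕜 K := by
  obtain ⟨a, ha⟩ := a
  induction ha using Algebra.adjoin_induction with
  | mem x hx =>
    obtain ⟨i, j, h1, h2, rfl⟩ := hx
    have h3 := h i j h1 h2
    convert h3 using 2
    exact Subtype.ext (gen_val ⟨h1, h2⟩).symm
  | algebraMap r => exact mem_Fc.2 ⟨r, ψ.commutes r⟩
  | add x y hx hy ihx ihy =>
    have := add_mem ihx ihy
    rw [← map_add] at this
    exact this
  | mul x y hx hy ihx ihy =>
    have := mul_mem ihx ihy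
    rw [← map_mul] at this
    exact this

lemma adjoin_form (θ : (MvPolynomial (Fin 2) 𝕜) →ₐ[𝕜] K)
    (hμ : ∀ i j, 2 ≤ i + j → i + j ≤ 5 →
      ψ ((genP 𝕜) i j) * θ (cubic * conic) = θ (X 0 ^ i * X 1 ^ j)) (a : (coordinateRing 𝕜)) :
    ∃ (n : ℕ) (F : (MvPolynomial (Fin 2) 𝕜)), (a : (FractionRing (MvPolynomial (Fin 2) 𝕜))) * (toFP 𝕜) (cubic * conic) ^ n = (toFP 𝕜) F ∧
      ψ a * θ (cubic * conic) ^ n = θ F := by
  obtain ⟨a, ha⟩ := a
  induction ha using Algebra.adjoin_induction with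
  | mem x hx =>
    obtain ⟨i, j, h1, h2, rfl⟩ := hx
    refine ⟨1, X 0 ^ i * X 1 ^ j, ?_, ?_⟩
    · rw [pow_one]
      exact div_mul_cancel₀ _ cq_ne
    · rw [pow_one, ← hμ i j h1 h2]
      congr 2
      exact Subtype.ext (gen_val ⟨h1, h2⟩).symm
  | algebraMap r =>
    refine ⟨0, C r, ?_, ?_⟩
    · rw [pow_zero, mul_one]
      exact IsScalarTower.algebraMap_apply 𝕜 (MvPolynomial (Fin 2) 𝕜) (FractionRing (MvPolynomial (Fin 2) 𝕜)) r
    · rw [pow_zero, mul_one]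
      exact (ψ.commutes r).trans (θ.commutes r).symm
  | add x y hx hy ihx ihy =>
    obtain ⟨n, F, h1, h2⟩ := ihx
    obtain ⟨m, G, h3, h4⟩ := ihy
    refine ⟨n + m, F * (cubic * conic) ^ m + G * (cubic * conic) ^ n, ?_, ?_⟩
    · change x * _ = _ at h1
      change y * _ = _ at h3
      change (x + y) * _ = _
      rw [map_add, map_mul (toFP 𝕜) F, map_mul (toFP 𝕜) G, map_pow, map_pow, ← h1, ← h3]
      ring
    · rw [map_add θ, map_mul θ F, map_mul θ G, map_pow, map_pow, ← h2, ← h4]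
      have : ψ ⟨x + y, add_mem hx hy⟩ = ψ ⟨x, hx⟩ + ψ ⟨y, hy⟩ := by
        rw [← map_add]
        rfl
      rw [this]
      ring
  | mul x y hx hy ihx ihy =>
    obtain ⟨n, F, h1, h2⟩ := ihx
    obtain ⟨m, G, h3, h4⟩ := ihy
    refine ⟨n + m, F * G, ?_, ?_⟩
    · change x * _ = _ at h1
      change y * _ = _ at h3
      change (x * y) * _ = _
      rw [map_mul (toFP 𝕜) F, ← h1, ← h3]
      ring
    · rw [map_mul θ F, ← h2, ← h4]
      have : ψ ⟨x * y, mul_mem hx hy⟩ = ψ ⟨x, hx⟩ * ψ ⟨y, hy⟩ := by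
        rw [← map_mul]
        rfl
      rw [this]
      ring

end

end Pool.Agent.H68.RJ.Ram
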