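import Mathlib
import Pool.Agent.H68.RJ.RP

set_option autoImplicit false

namespace Pool.Agent.H68.RJ.Ram

open MvPolynomial
open Pool.Agent.H68.RJ.Ramanujam (cubic conic coordinateRing pointsAtInfinity)

noncomputable section

universe u v w

variable {𝕜 : Type u} [Field 𝕜] [IsAlgClosed 𝕜] [CharZero 𝕜] {K : Type v} [Field K] [Algebra 𝕜 K]

omit [IsAlgClosed 𝕜] [CharZero 𝕜] in
lemma form_aux {F : Type w} [Field F] [Algebra 𝕜 F] (A : Subalgebra 𝕜 F) (ψ : A →ₐ[𝕜] K) (u : A)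
    (a : Fin 2 → A) (x : Fin 2 → F) (hx : ∀ i, (a i : F) = u * x i) (y : Fin 2 → K)
    (hy : ∀ i, ψ (a i) = ψ u * y i) (G : MvPolynomial (Fin 2) 𝕜) :
    ∃ (N : ℕ) (c : A), (c : F) = (u : F) ^ N * aeval x G ∧ ψ c = ψ u ^ N * aeval y G := by
  induction G using MvPolynomial.induction_on with
  | C z =>
    refine ⟨0, algebraMap 𝕜 A z, ?_, ?_⟩
    · rw [aeval_C, pow_zero, one_mul]
      rfl
    · rw [aeval_C, pow_zero, one_mul]
      exact ψ.commutes z
  | add p q hp hq =>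
    obtain ⟨N, c, h1, h2⟩ := hp
    obtain ⟨M, d, h3, h4⟩ := hq
    refine ⟨N + M, u ^ M * c + u ^ N * d, ?_, ?_⟩
    · push_cast
      rw [h1, h3, map_add]
      ring
    · rw [map_add, map_mul, map_mul, map_pow, map_pow, h2, h4, map_add]
      ring
  | mul_X p i hp =>
    obtain ⟨N, c, h1, h2⟩ := hp
    refine ⟨N + 1, c * a i, ?_, ?_⟩
    · push_cast
      rw [h1, hx, map_mul, aeval_X]
      ring
    · rw [map_mul, h2, hy, map_mul, aeval_X]
      ring

/-- an injective homomorphism of the coordinate ring extends to the rational functions -/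
lemma ext_frac (ψ : coordinateRing 𝕜 →ₐ[𝕜] K) (hinj : Function.Injective ψ) :
    ∃ θ : MvPolynomial (Fin 2) 𝕜 →ₐ[𝕜] K, Function.Injective θ ∧
      ψ (genP 𝕜 2 0) * θ (cubic * conic) = θ (X 0) ^ 2 := by
  have hcq := cq_ne (𝕜 := 𝕜)
  have hX : toFP 𝕜 (X 0) ≠ 0 := by
    intro h
    exact X_ne_zero (R := 𝕜) (0 : Fin 2) (toF_inj (by rw [h, map_zero]))
  have g20 : (genP 𝕜 2 0 : FractionRing (MvPolynomial (Fin 2) 𝕜)) =
      toFP 𝕜 (X 0) ^ 2 / toFP 𝕜 (cubic * conic) := by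
    rw [gen_val (by norm_num), pow_zero, mul_one, map_pow]
  have g30 : (genP 𝕜 3 0 : FractionRing (MvPolynomial (Fin 2) 𝕜)) =
      toFP 𝕜 (X 0) ^ 3 / toFP 𝕜 (cubic * conic) := by
    rw [gen_val (by norm_num), pow_zero, mul_one, map_pow]
  have g21 : (genP 𝕜 2 1 : FractionRing (MvPolynomial (Fin 2) 𝕜)) =
      toFP 𝕜 (X 0) ^ 2 * toFP 𝕜 (X 1) / toFP 𝕜 (cubic * conic) := by
    rw [gen_val (by norm_num), pow_one, map_mul, map_pow]
  have hu : (genP 𝕜 2 0 : FractionRing (MvPolynomial (Fin 2) 𝕜)) ≠ 0 := by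
    rw [g20]
    exact div_ne_zero (pow_ne_zero _ hX) hcq
  have hu' : genP 𝕜 2 0 ≠ 0 := fun h => hu (by rw [h]; rfl)
  have hψu : ψ (genP 𝕜 2 0) ≠ 0 := fun h => hu' (hinj (by rw [h, map_zero]))
  have hev : ∀ G : MvPolynomial (Fin 2) 𝕜,
      aeval (fun i => toFP 𝕜 (X i)) G = toFP 𝕜 G := by
    intro G
    have e : (aeval (fun i => toFP 𝕜 (X i)) : MvPolynomial (Fin 2) 𝕜 →ₐ[𝕜] _) =
        IsScalarTower.toAlgHom 𝕜 (MvPolynomial (Fin 2) 𝕜)
          (FractionRing (MvPolynomial (Fin 2) 𝕜)) := by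
      apply MvPolynomial.algHom_ext
      intro i
      rw [aeval_X]
      rfl
    exact DFunLike.congr_fun e G
  have haux := form_aux (coordinateRing 𝕜) ψ (genP 𝕜 2 0) ![genP 𝕜 3 0, genP 𝕜 2 1]
    (fun i => toFP 𝕜 (X i)) (by
      intro i
      fin_cases i
      · show (genP 𝕜 3 0 : FractionRing (MvPolynomial (Fin 2) 𝕜)) = _ * toFP 𝕜 (X 0)
        rw [g30, g20]
        ring
      · show (genP 𝕜 2 1 : FractionRing (MvPolynomial (Fin 2) 𝕜)) = _ * toFP 𝕜 (X 1)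
        rw [g21, g20]
        ring)
    ![ψ (genP 𝕜 3 0) / ψ (genP 𝕜 2 0), ψ (genP 𝕜 2 1) / ψ (genP 𝕜 2 0)] (by
      intro i
      fin_cases i
      · show ψ (genP 𝕜 3 0) = ψ (genP 𝕜 2 0) * (ψ (genP 𝕜 3 0) / ψ (genP 𝕜 2 0))
        rw [mul_div_cancel₀ _ hψu]
      · show ψ (genP 𝕜 2 1) = ψ (genP 𝕜 2 0) * (ψ (genP 𝕜 2 1) / ψ (genP 𝕜 2 0))
        rw [mul_div_cancel₀ _ hψu])
  refine ⟨aeval ![ψ (genP 𝕜 3 0) / ψ (genP 𝕜 2 0), ψ (genP 𝕜 2 1) / ψ (genP 𝕜 2 0)], ?_, ?_⟩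
  · rw [injective_iff_map_eq_zero]
    intro G hG
    obtain ⟨N, c, h1, h2⟩ := haux G
    rw [hG, mul_zero] at h2
    have hc : c = 0 := hinj (by rw [h2, map_zero])
    rw [hc, hev] at h1
    have h3 : toFP 𝕜 G = 0 := by
      rcases mul_eq_zero.1 h1.symm with h | h
      · exact absurd h (pow_ne_zero _ hu)
      · exact h
    exact toF_inj (𝕜 := 𝕜) (by rw [h3, map_zero])
  · obtain ⟨N, c, h1, h2⟩ := haux (cubic * conic)
    rw [hev] at h1
    have e : genP 𝕜 2 0 ^ 3 * c = genP 𝕜 2 0 ^ N * genP 𝕜 3 0 ^ 2 := by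
      apply Subtype.ext
      push_cast
      rw [h1, g30, g20]
      field_simp
    have e' := congrArg ψ e
    rw [map_mul, map_mul, map_pow, map_pow, map_pow, h2] at e'
    have e2 : ψ (genP 𝕜 2 0) ^ 3 * aeval ![ψ (genP 𝕜 3 0) / ψ (genP 𝕜 2 0),
        ψ (genP 𝕜 2 1) / ψ (genP 𝕜 2 0)] (cubic * conic : MvPolynomial (Fin 2) 𝕜) =
          ψ (genP 𝕜 3 0) ^ 2 := by
      apply mul_left_cancel₀ (pow_ne_zero N hψu)
      linear_combination e'
    rw [aeval_X]
    show _ = (ψ (genP 𝕜 3 0) / ψ (genP 𝕜 2 0)) ^ 2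
    rw [div_pow, eq_div_iff (pow_ne_zero _ hψu)]
    linear_combination e2

lemma not_uniq_of_injective (ψ : coordinateRing 𝕜 →ₐ[𝕜] K) (hinj : Function.Injective ψ)
    (hu : Uniq ψ) : False := by
  obtain ⟨θ, hθ, hg⟩ := ext_frac ψ hinj
  have key : ∀ a b : 𝕜, a ≠ 0 → eval ![a, b] (cubic : MvPolynomial (Fin 2) 𝕜) = 0 →
      ∃ V : ValuationSubring K, CstP 𝕜 V ∧ AtP 𝕜 V (θ (X 0)) a ∧ ∃ c, ψ c ∉ V := by
    intro a b ha hc
    obtain ⟨V, hV, h⟩ := exists_place (K := K) (fun i : Fin 2 => θ (X i)) ![a, b] (by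
      intro G hG
      rw [aeval_theta] at hG
      rw [(injective_iff_map_eq_zero θ).1 hθ G hG, map_zero])
    have h0 : AtP 𝕜 V (θ (X 0)) a := h 0
    have h1 : AtP 𝕜 V (θ (X 1)) b := h 1
    refine ⟨V, hV, h0, genP 𝕜 2 0, ?_⟩
    intro hmem
    have h2 := (V.valuation_le_one_iff _).2 hmem
    have h3 : AtP 𝕜 V (θ (cubic * conic)) 0 := by
      have := AtP.theta hV h0 h1 (cubic * conic)
      rwa [map_mul (eval ![a, b]), hc, zero_mul] at this
    have h4 := h3.val_lt_one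
    have h5 := h0.val_eq_one hV ha
    have h6 := congrArg V.valuation hg
    rw [map_mul, map_pow, h5, one_pow] at h6
    have h7 : V.valuation (ψ (genP 𝕜 2 0)) * V.valuation (θ (cubic * conic)) < 1 := by
      rw [mul_comm]
      exact mul_lt_one_of_lt_of_le h4 h2
    rw [h6] at h7
    exact lt_irrefl _ h7
  obtain ⟨V, hV, h1, h2⟩ := key 1 (-4) one_ne_zero (by rw [eval_cubic]; norm_num)
  obtain ⟨V', hV', h1', h2'⟩ := key (-1) (-6) (by norm_num) (by rw [eval_cubic]; norm_num)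
  have e := hu V V' hV hV' h2 h2'
  subst e
  have := h1.unique hV h1'
  norm_num at this

/-- every homomorphism to a field with at most one place at infinity is constant -/
theorem const_of_uniq (ψ : coordinateRing 𝕜 →ₐ[𝕜] K) (hu : Uniq ψ) : ∀ a, ψ a ∈ Fc 𝕜 K := by
  by_contra hnc
  by_cases hinj : Function.Injective ψ
  · exact not_uniq_of_injective ψ hinj hu
  · refine no_hom hu ?_ hnc
    rw [injective_iff_map_eq_zero] at hinj
    push Not at hinj
    obtain ⟨a, h1, h2⟩ := hinj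
    exact ⟨a, h2, h1⟩

/-- every morphism from an irreducible curve with at most one point at infinity is constant -/
theorem const_hom (B : Type v) [CommRing B] [IsDomain B] [Algebra 𝕜 B]
    (hB : (pointsAtInfinity 𝕜 B).Subsingleton) (φ : coordinateRing 𝕜 →ₐ[𝕜] B)
    (a : coordinateRing 𝕜) : ∃ z : 𝕜, φ a = algebraMap 𝕜 B z := by
  let ψ : coordinateRing 𝕜 →ₐ[𝕜] FractionRing B :=
    (IsScalarTower.toAlgHom 𝕜 B (FractionRing B)).comp φ
  have hψ : ∀ a, ψ a = algebraMap B (FractionRing B) (φ a) := fun a => rfl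
  have key : ∀ V : ValuationSubring (FractionRing B), CstP 𝕜 V → (∃ a, ψ a ∉ V) →
      V ∈ pointsAtInfinity 𝕜 B := by
    intro V hV ⟨a, ha⟩
    refine ⟨?_, φ a, ha⟩
    intro z
    rw [← IsScalarTower.algebraMap_apply 𝕜 B (FractionRing B)]
    exact hV z
  obtain ⟨z, hz⟩ := mem_Fc.1 (const_of_uniq ψ
    (fun V V' h1 h2 h3 h4 => hB (key V h1 h3) (key V' h2 h4)) a)
  refine ⟨z, IsFractionRing.injective B (FractionRing B) ?_⟩
  rw [← IsScalarTower.algebraMap_apply 𝕜 B (FractionRing B), ← hz]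
  rfl

/-- the same for the rings which are generated by homomorphic images of the coordinate ring -/
theorem const_hom_gen {ι : Type w} (R : Type u) [CommRing R] [Algebra 𝕜 R]
    (f : ι → coordinateRing 𝕜 →ₐ[𝕜] R) (hf : ⨆ i, (f i).range = ⊤)
    (B : Type v) [CommRing B] [IsDomain B] [Algebra 𝕜 B]
    (hB : (pointsAtInfinity 𝕜 B).Subsingleton) (φ : R →ₐ[𝕜] B) (r : R) :
    ∃ z : 𝕜, φ r = algebraMap 𝕜 B z := by
  have h : (⨆ i, (f i).range) ≤ (⊥ : Subalgebra 𝕜 B).comap φ := by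
    apply iSup_le
    rintro i _ ⟨a, rfl⟩
    obtain ⟨z, hz⟩ := const_hom B hB (φ.comp (f i)) a
    exact ⟨z, hz.symm⟩
  have h' := h (hf ▸ Algebra.mem_top : r ∈ ⨆ i, (f i).range)
  obtain ⟨z, hz⟩ := h'
  exact ⟨z, hz.symm⟩

open scoped TensorProduct in
lemma pi_gen (n : ℕ) : ⨆ i, (PiTensorProduct.singleAlgHom (R := 𝕜)
    (A := fun _ : Fin n => coordinateRing 𝕜) i).range = ⊤ := by
  rw [eq_top_iff]
  intro x _
  induction x using PiTensorProduct.induction_on with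
  | smul_tprod r f =>
    apply Subalgebra.smul_mem
    have e : PiTensorProduct.tprod 𝕜 f =
        ∏ i, PiTensorProduct.singleAlgHom (R := 𝕜) (A := fun _ : Fin n => coordinateRing 𝕜) i (f i) := by
      have h := PiTensorProduct.tprod_prod (R := 𝕜) (Finset.univ : Finset (Fin n))
        (fun i => MonoidHom.mulSingle (fun _ : Fin n => coordinateRing 𝕜) i (f i))
      have h' : ∏ i, MonoidHom.mulSingle (fun _ : Fin n => coordinateRing 𝕜) i (f i) = f := by
        simp only [MonoidHom.mulSingle_apply]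
        exact Finset.univ_prod_mulSingle f
      rw [h'] at h
      exact h
    rw [e]
    apply Subalgebra.prod_mem
    intro i _
    exact (le_iSup (fun i => (PiTensorProduct.singleAlgHom (R := 𝕜)
      (A := fun _ : Fin n => coordinateRing 𝕜) i).range) i) ⟨f i, rfl⟩
  | add x y hx hy => exact Subalgebra.add_mem _ (hx Algebra.mem_top) (hy Algebra.mem_top)

end

end Pool.Agent.H68.RJ.Ram
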